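import Mathlib

/-!
# Module Loc: local solutions

`loc_unique`, `loc_exists`: apply the inverse function theorem to
`Φ (x, l) = (g (x, l), l)`, whose strict derivative `(v, m) ↦ (g' (v, m), m)` is bijective
(`g' (v, m) = g' (v, 0) + g' (0, m)`); a linear bijection of finite-dimensional spaces is a
continuous linear equivalence.

`persist`: the inverse function theorem at every point of `S`: the local inverses are continuous,
so for small `ε` the points `x_i (ε)` are distinct and `J` is near `J (x_i) ≠ 0`.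
-/

namespace Pool.Agent.KV

open Topology Filter

variable {E : Type*} [NormedAddCommGroup E] [NormedSpace ℝ E] [FiniteDimensional ℝ E]

private theorem Loc_phi {g : E × ℝ → E} {p : E × ℝ} {g' : E × ℝ →L[ℝ] E}
    (hg : HasStrictFDerivAt g g' p) (hinj : ∀ v : E, g' (v, 0) = 0 → v = 0) :
    ∃ e : (E × ℝ) ≃L[ℝ] (E × ℝ), HasStrictFDerivAt (fun q : E × ℝ => (g q, q.2))
      (e : (E × ℝ) →L[ℝ] (E × ℝ)) p := by
  have h1 : HasStrictFDerivAt (fun q : E × ℝ => (g q, q.2))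
      (g'.prod (ContinuousLinearMap.snd ℝ E ℝ)) p := hg.prodMk hasStrictFDerivAt_snd
  have h2 : Function.Injective
      ((g'.prod (ContinuousLinearMap.snd ℝ E ℝ) : (E × ℝ) →L[ℝ] (E × ℝ)) :
        (E × ℝ) →ₗ[ℝ] (E × ℝ)) := by
    rw [injective_iff_map_eq_zero]
    rintro ⟨v, m⟩ h
    have h3 : g' (v, m) = 0 := congrArg Prod.fst h
    have h4 : m = 0 := congrArg Prod.snd h
    subst h4
    rw [hinj v h3]
    rfl
  refine ⟨(LinearEquiv.ofInjectiveEndo _ h2).toContinuousLinearEquiv, ?_⟩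
  have h5 : (((LinearEquiv.ofInjectiveEndo _ h2).toContinuousLinearEquiv :
      (E × ℝ) ≃L[ℝ] (E × ℝ)) : (E × ℝ) →L[ℝ] (E × ℝ)) =
      g'.prod (ContinuousLinearMap.snd ℝ E ℝ) := by
    ext q <;> rfl
  rw [h5]
  exact h1

private theorem Loc_nhds {F : E → E} {F' : E →L[ℝ] E} {x : E} (hF : HasStrictFDerivAt F F' x)
    (hinj : ∀ v : E, F' v = 0 → v = 0) : map F (𝓝 x) = 𝓝 (F x) := by
  have : CompleteSpace E := FiniteDimensional.complete ℝ E
  have h2 : Function.Injective (F' : E →ₗ[ℝ] E) := by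
    rw [injective_iff_map_eq_zero]
    exact hinj
  have h5 : (((LinearEquiv.ofInjectiveEndo _ h2).toContinuousLinearEquiv :
      E ≃L[ℝ] E) : E →L[ℝ] E) = F' := by
    ext q
    rfl
  have h6 : HasStrictFDerivAt F (((LinearEquiv.ofInjectiveEndo _ h2).toContinuousLinearEquiv :
      E ≃L[ℝ] E) : E →L[ℝ] E) x := by
    rw [h5]
    exact hF
  exact h6.map_nhds_eq_of_equiv

theorem loc_unique {g : E × ℝ → E} {p : E × ℝ} {g' : E × ℝ →L[ℝ] E}
    (hg : HasStrictFDerivAt g g' p) (hinj : ∀ v : E, g' (v, 0) = 0 → v = 0) :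
    ∃ U ∈ 𝓝 p.1, ∃ V ∈ 𝓝 p.2, ∀ l ∈ V, ∀ x ∈ U, ∀ x' ∈ U, g (x, l) = g (x', l) → x = x' := by
  have : CompleteSpace E := FiniteDimensional.complete ℝ E
  obtain ⟨e, he⟩ := Loc_phi hg hinj
  have h1 : (he.toOpenPartialHomeomorph _).source ∈ 𝓝 p :=
    (he.toOpenPartialHomeomorph _).open_source.mem_nhds he.mem_toOpenPartialHomeomorph_source
  rw [nhds_prod_eq, Filter.mem_prod_iff] at h1
  obtain ⟨U, hU, V, hV, hUV⟩ := h1
  refine ⟨U, hU, V, hV, fun l hl x hx x' hx' h => ?_⟩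
  have h2 := (he.toOpenPartialHomeomorph _).injOn (hUV (Set.mk_mem_prod hx hl))
    (hUV (Set.mk_mem_prod hx' hl)) (by
      rw [he.toOpenPartialHomeomorph_coe]
      exact Prod.ext h rfl)
  exact congrArg Prod.fst h2

theorem loc_exists {g : E × ℝ → E} {p : E × ℝ} {g' : E × ℝ →L[ℝ] E}
    (hg : HasStrictFDerivAt g g' p) (hinj : ∀ v : E, g' (v, 0) = 0 → v = 0) :
    ∀ U ∈ 𝓝 p.1, ∀ᶠ l in 𝓝 p.2, ∃ x ∈ U, g (x, l) = g p := by
  have : CompleteSpace E := FiniteDimensional.complete ℝ E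
  obtain ⟨e, he⟩ := Loc_phi hg hinj
  intro U hU
  have h1 : U ×ˢ (Set.univ : Set ℝ) ∈ 𝓝 p := by
    rw [nhds_prod_eq]
    exact prod_mem_prod hU univ_mem
  have h2 := image_mem_map (m := fun q : E × ℝ => (g q, q.2)) h1
  rw [he.map_nhds_eq_of_equiv] at h2
  have h3 : ContinuousAt (fun l : ℝ => ((g p, l) : E × ℝ)) p.2 :=
    (Continuous.prodMk continuous_const continuous_id).continuousAt
  have h4 := h3.preimage_mem_nhds h2
  filter_upwards [h4] with l hl
  obtain ⟨⟨x, l'⟩, ⟨hx, -⟩, h5⟩ := hl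
  have h6 : g (x, l') = g p := congrArg Prod.fst h5
  have h7 : l' = l := congrArg Prod.snd h5
  subst h7
  exact ⟨x, hx, h6⟩

theorem persist {F : E → E} {F' : E → E →L[ℝ] E} {J : E → ℝ} (hJ : Continuous J)
    (S : Finset E) (hS : ∀ x ∈ S, F x = 0 ∧ J x ≠ 0 ∧ HasStrictFDerivAt F (F' x) x ∧
      ∀ v : E, F' x v = 0 → v = 0) :
    ∃ η > 0, ∀ᶠ ε in 𝓝 (0 : E), ∃ S' : Finset E, S'.card = S.card ∧
      ∀ x ∈ S', F x = ε ∧ η < |J x| := by
  classical
  obtain ⟨η, hη0, hη⟩ : ∃ η > 0, ∀ x ∈ S, η < |J x| := by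
    have h1 : ∀ᶠ η in 𝓝[>] (0 : ℝ), ∀ x ∈ S, η < |J x| := by
      rw [Filter.eventually_all_finset]
      intro x hx
      have h2 : 0 < |J x| := abs_pos.2 (hS x hx).2.1
      filter_upwards [Ioo_mem_nhdsGT h2] with y hy using hy.2
    obtain ⟨η, h2, h3⟩ := (h1.and self_mem_nhdsWithin).exists
    exact ⟨η, h3, h2⟩
  refine ⟨η, hη0, ?_⟩
  obtain ⟨U, hU, hdis⟩ := S.finite_toSet.t2_separation
  have h1 : ∀ᶠ ε in 𝓝 (0 : E), ∀ x ∈ S, ε ∈ F '' (U x ∩ {y | η < |J y|}) := by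
    rw [Filter.eventually_all_finset]
    intro x hx
    have h2 : U x ∩ {y | η < |J y|} ∈ 𝓝 x := by
      refine inter_mem ((hU x).2.mem_nhds (hU x).1) ?_
      exact (isOpen_lt continuous_const hJ.abs).mem_nhds (hη x hx)
    have h3 := image_mem_map (m := F) h2
    rw [Loc_nhds (hS x hx).2.2.1 (hS x hx).2.2.2, (hS x hx).1] at h3
    exact h3
  filter_upwards [h1] with ε hε
  choose! y hy using hε
  refine ⟨S.image y, Finset.card_image_of_injOn ?_, ?_⟩
  · intro a ha b hb hab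
    by_contra hne
    have h2 := hdis ha hb hne
    have h3 := (hy a ha).1.1
    have h4 := (hy b hb).1.1
    rw [← hab] at h4
    exact Set.disjoint_left.1 h2 h3 h4
  · intro z hz
    obtain ⟨x, hx, rfl⟩ := Finset.mem_image.1 hz
    exact ⟨(hy x hx).2, (hy x hx).1.2⟩

end Pool.Agent.KV
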