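import Pool.Agent.H.MP_b2d7dd_lc.KV.Deriv
import Pool.Agent.H.MP_b2d7dd_lc.KV.Loc

/-!
# Module Bez: the bound of Bezout for nonsingular real zeros

`reduce_box`: `V` = the polynomials of total degree at most `T`
(`MvPolynomial.restrictTotalDegree`, finite-dimensional). Let `L : V → V` be the linear map with
`L (x^β) = 0` if all `β_i < d`, and otherwise `L (x^β) = x^(β - d e_i) * P i` for a chosen `i` with
`d ≤ β_i` (total degree at most `T` since `(P i).totalDegree ≤ d`). If `-ε` is not an eigenvalue of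
`L` (finitely many eigenvalues, `Module.End.finite_hasEigenvalue`), then `L + ε` is injective,
hence surjective, and `(L + ε) (x^β) = x^(β - d e_i) * (P i + ε x_i^d)` or `ε x^β` with `x^β` in the
box.

`card_zeros_le`: for such `ε` with `T = d ^ #ι + 1` a set of `T` common zeros of the
`P i + ε x_i^d` is impossible: the evaluation at the `T` points is onto on the polynomials of
degree at most `T` (`interp`), it factors through the span of the box monomials, of dimension at
most `d ^ #ι`.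
-/

namespace Pool.Agent.KV

open MvPolynomial Topology

variable {ι : Type} [Fintype ι]

private theorem Bez_pol (S : Finset (ι → ℝ)) (x : ι → ℝ) :
    ∃ f : MvPolynomial ι ℝ, f.totalDegree ≤ S.card ∧ MvPolynomial.eval x f = 1 ∧
      ∀ y ∈ S, y ≠ x → MvPolynomial.eval y f = 0 := by
  classical
  have hex : ∀ y : ι → ℝ, ∃ g : MvPolynomial ι ℝ, y ≠ x →
      g.totalDegree ≤ 1 ∧ MvPolynomial.eval x g = 1 ∧ MvPolynomial.eval y g = 0 := by
    intro y
    by_cases hy : y = x
    · exact ⟨0, fun h => absurd hy h⟩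
    · obtain ⟨i, hi⟩ := Function.ne_iff.1 hy
      have h0 : x i - y i ≠ 0 := sub_ne_zero.2 (Ne.symm hi)
      refine ⟨C (x i - y i)⁻¹ * (X i - C (y i)), fun _ => ⟨?_, ?_, ?_⟩⟩
      · refine (totalDegree_mul _ _).trans ?_
        rw [totalDegree_C, zero_add]
        refine (totalDegree_sub _ _).trans ?_
        rw [totalDegree_X, totalDegree_C]
        simp
      · rw [map_mul, map_sub, eval_C, eval_X, eval_C]
        exact inv_mul_cancel₀ h0
      · rw [map_mul, map_sub, eval_C, eval_X, eval_C, sub_self, mul_zero]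
  choose g hg using hex
  refine ⟨∏ y ∈ S.erase x, g y, ?_, ?_, ?_⟩
  · refine (totalDegree_finsetProd _ _).trans ?_
    refine (Finset.sum_le_card_nsmul _ _ 1 fun y hy =>
      (hg y (Finset.ne_of_mem_erase hy)).1).trans ?_
    rw [smul_eq_mul, mul_one]
    exact Finset.card_le_card (Finset.erase_subset _ _)
  · rw [map_prod]
    exact Finset.prod_eq_one fun y hy => (hg y (Finset.ne_of_mem_erase hy)).2.1
  · intro y hy hne
    rw [map_prod]
    exact Finset.prod_eq_zero (Finset.mem_erase.2 ⟨hne, hy⟩) (hg y hne).2.2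

theorem interp (S : Finset (ι → ℝ)) (v : (ι → ℝ) → ℝ) :
    ∃ f : MvPolynomial ι ℝ, f.totalDegree ≤ S.card ∧ ∀ x ∈ S, MvPolynomial.eval x f = v x := by
  classical
  choose L h1 h2 h3 using Bez_pol S
  refine ⟨∑ x ∈ S, C (v x) * L x, ?_, ?_⟩
  · refine totalDegree_finsetSum_le fun x _ => ?_
    refine (totalDegree_mul _ _).trans ?_
    rw [totalDegree_C, zero_add]
    exact h1 x
  · intro x hx
    rw [map_sum, Finset.sum_eq_single x]
    · rw [map_mul, eval_C, h2, mul_one]
    · intro y _ hne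
      rw [map_mul, h3 y x hx (Ne.symm hne), mul_zero]
    · intro h
      exact absurd hx h

/-- The span of the monomials with all exponents less than `d`. -/
noncomputable def box (ι : Type) (d : ℕ) : Submodule ℝ (MvPolynomial ι ℝ) :=
  Submodule.span ℝ {f | ∃ β : ι →₀ ℕ, (∀ i, β i < d) ∧ f = monomial β 1}

theorem finrank_box_le (d : ℕ) :
    FiniteDimensional ℝ (box ι d) ∧ Module.finrank ℝ (box ι d) ≤ d ^ Fintype.card ι := by
  classical
  have h1 : box ι d = Submodule.span ℝ (Set.range (fun β : ι → Fin d =>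
      (monomial (Finsupp.equivFunOnFinite.symm (fun i => (β i : ℕ))) 1 : MvPolynomial ι ℝ))) := by
    unfold box
    congr 1
    ext f
    constructor
    · rintro ⟨β, hβ, rfl⟩
      refine ⟨fun i => ⟨β i, hβ i⟩, ?_⟩
      have h2 : Finsupp.equivFunOnFinite.symm (fun i => β i) = β := by
        ext i
        simp
      simp only [h2]
    · rintro ⟨β, rfl⟩
      exact ⟨_, fun i => by simp, rfl⟩
  rw [h1]
  exact ⟨FiniteDimensional.span_of_finite ℝ (Set.finite_range _),
    (finrank_range_le_card _).trans (by simp)⟩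

private theorem Bez_fd (T : ℕ) : FiniteDimensional ℝ (restrictTotalDegree ι ℝ T) := by
  have hfin : {n : ι →₀ ℕ | (n.sum fun _ e => e) ≤ T}.Finite := by
    classical
    refine (Set.finite_Iic (Finsupp.equivFunOnFinite.symm fun _ : ι => T)).subset fun n hn => ?_
    intro i
    have h1 : n i ≤ n.sum fun _ e => e := by
      by_cases hi : i ∈ n.support
      · exact Finset.single_le_sum (f := fun i => n i) (fun _ _ => Nat.zero_le _) hi
      · rw [Finsupp.notMem_support_iff.1 hi]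
        exact Nat.zero_le _
    simpa using h1.trans hn
  have := hfin.to_subtype
  exact Module.Finite.of_basis (basisRestrictSupport ℝ {n : ι →₀ ℕ | (n.sum fun _ e => e) ≤ T})

/-- the polynomials that can be reduced -/
private def BezW (d : ℕ) (Q : ι → MvPolynomial ι ℝ) : Submodule ℝ (MvPolynomial ι ℝ) where
  carrier := {f | ∃ b ∈ box ι d, ∃ h : ι → MvPolynomial ι ℝ, f = b + ∑ i, h i * Q i}
  zero_mem' := ⟨0, Submodule.zero_mem _, 0, by simp⟩
  add_mem' := by
    rintro f g ⟨b, hb, h, rfl⟩ ⟨b', hb', h', rfl⟩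
    refine ⟨b + b', Submodule.add_mem _ hb hb', h + h', ?_⟩
    simp only [Pi.add_apply, add_mul, Finset.sum_add_distrib]
    ring
  smul_mem' := by
    rintro c f ⟨b, hb, h, rfl⟩
    refine ⟨c • b, Submodule.smul_mem _ _ hb, c • h, ?_⟩
    simp only [Pi.smul_apply, smul_add, Finset.smul_sum, smul_mul_assoc]

theorem reduce_box {d : ℕ} (hd : 1 ≤ d) (P : ι → MvPolynomial ι ℝ)
    (hP : ∀ i, (P i).totalDegree ≤ d) (T : ℕ) :
    ∃ Bad : Set ℝ, Bad.Finite ∧ ∀ ε, ε ∉ Bad → ∀ f : MvPolynomial ι ℝ, f.totalDegree ≤ T →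
      ∃ b ∈ box ι d, ∃ h : ι → MvPolynomial ι ℝ, f = b + ∑ i, h i * (P i + C ε * X i ^ d) := by
  classical
  have hex : ∀ β : ι →₀ ℕ, ∃ q : MvPolynomial ι ℝ, ((∀ i, β i < d) ∧ q = 0) ∨
      (∃ i, d ≤ β i ∧ q = monomial (β - Finsupp.single i d) 1 * P i) := by
    intro β
    by_cases h : ∀ i, β i < d
    · exact ⟨0, Or.inl ⟨h, rfl⟩⟩
    · push Not at h
      obtain ⟨i, hi⟩ := h
      exact ⟨_, Or.inr ⟨i, hi, rfl⟩⟩
  choose a ha using hex
  have hsub : ∀ (β : ι →₀ ℕ) (i : ι), d ≤ β i → (β - Finsupp.single i d) + Finsupp.single i d = β :=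
    fun β i hi => tsub_add_cancel_of_le (Finsupp.single_le_iff.2 hi)
  have hdeg : ∀ β, (a β).totalDegree ≤ β.sum fun _ e => e := by
    intro β
    rcases ha β with ⟨-, h⟩ | ⟨i, hi, h⟩
    · rw [h, totalDegree_zero]
      exact Nat.zero_le _
    · rw [h]
      refine (totalDegree_mul _ _).trans ?_
      have h1 : (monomial (β - Finsupp.single i d) (1 : ℝ)).totalDegree ≤
          (β - Finsupp.single i d).sum fun _ e => e := totalDegree_monomial_le _ _
      have h2 : (β.sum fun _ e => e) = ((β - Finsupp.single i d).sum fun _ e => e) + d := by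
        conv_lhs => rw [← hsub β i hi]
        rw [Finsupp.sum_add_index' (fun _ => rfl) (fun _ _ _ => rfl), Finsupp.sum_single_index rfl]
      rw [h2]
      exact Nat.add_le_add h1 (hP i)
  obtain ⟨L, hL⟩ : ∃ L : MvPolynomial ι ℝ →ₗ[ℝ] MvPolynomial ι ℝ, ∀ β, L (monomial β 1) = a β :=
    ⟨(basisMonomials ι ℝ).constr ℝ a, fun β => (basisMonomials ι ℝ).constr_basis ℝ a β⟩
  have hmono : ∀ f : MvPolynomial ι ℝ, f = ∑ β ∈ f.support, coeff β f • monomial β 1 := by
    intro f
    conv_lhs => rw [← support_sum_monomial_coeff f]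
    refine Finset.sum_congr rfl fun β _ => ?_
    rw [smul_monomial, smul_eq_mul, mul_one]
  have hLf : ∀ f : MvPolynomial ι ℝ, L f = ∑ β ∈ f.support, coeff β f • a β := by
    intro f
    conv_lhs => rw [hmono f]
    rw [map_sum]
    refine Finset.sum_congr rfl fun β _ => ?_
    rw [map_smul, hL]
  have hLd : ∀ f ∈ restrictTotalDegree ι ℝ T, L f ∈ restrictTotalDegree ι ℝ T := by
    intro f hf
    rw [mem_restrictTotalDegree] at hf ⊢
    rw [hLf]
    refine totalDegree_finsetSum_le fun β hβ => ?_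
    exact (totalDegree_smul_le _ _).trans ((hdeg β).trans ((le_totalDegree hβ).trans hf))
  have hfd := Bez_fd (ι := ι) T
  obtain ⟨LV, hLV⟩ : ∃ LV : restrictTotalDegree ι ℝ T →ₗ[ℝ] restrictTotalDegree ι ℝ T,
      ∀ v, (LV v : MvPolynomial ι ℝ) = L v := ⟨L.restrict hLd, fun v => rfl⟩
  refine ⟨{ε | Module.End.HasEigenvalue LV (-ε)},
    (Module.End.finite_hasEigenvalue LV).preimage neg_injective.injOn, fun ε hε f hf => ?_⟩
  have hinj : Function.Injective (LV + ε • (LinearMap.id : restrictTotalDegree ι ℝ T →ₗ[ℝ] _)) := by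
    rw [injective_iff_map_eq_zero]
    intro v hv
    by_contra hv0
    apply hε
    refine Module.End.hasEigenvalue_of_hasEigenvector (x := v)
      ⟨Module.End.mem_eigenspace_iff.2 ?_, hv0⟩
    rw [LinearMap.add_apply, LinearMap.smul_apply, LinearMap.id_apply] at hv
    rw [neg_smul]
    exact eq_neg_of_add_eq_zero_left hv
  obtain ⟨g, hg⟩ := LinearMap.injective_iff_surjective.1 hinj
    ⟨f, (mem_restrictTotalDegree _ _ _).2 hf⟩
  have hg' : L g + ε • (g : MvPolynomial ι ℝ) = f := by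
    have h1 := congrArg (fun v : restrictTotalDegree ι ℝ T => (v : MvPolynomial ι ℝ)) hg
    simpa [hLV] using h1
  have hW : L g + ε • (g : MvPolynomial ι ℝ) ∈ BezW d (fun i => P i + C ε * X i ^ d) := by
    have h1 : L g + ε • (g : MvPolynomial ι ℝ) =
        ∑ β ∈ (g : MvPolynomial ι ℝ).support, coeff β (g : MvPolynomial ι ℝ) •
          (a β + ε • monomial β 1) := by
      have e1 : ε • (g : MvPolynomial ι ℝ) = ∑ β ∈ (g : MvPolynomial ι ℝ).support,
          coeff β (g : MvPolynomial ι ℝ) • (ε • monomial β (1 : ℝ)) := by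
        conv_lhs => rw [hmono (g : MvPolynomial ι ℝ)]
        rw [Finset.smul_sum]
        exact Finset.sum_congr rfl fun β _ => smul_comm _ _ _
      rw [hLf, e1, ← Finset.sum_add_distrib]
      exact Finset.sum_congr rfl fun β _ => (smul_add _ _ _).symm
    rw [h1]
    refine Submodule.sum_mem _ fun β _ => Submodule.smul_mem _ _ ?_
    rcases ha β with ⟨hβ, h⟩ | ⟨i, hi, h⟩
    · refine ⟨ε • monomial β 1, Submodule.smul_mem _ _ (Submodule.subset_span ⟨β, hβ, rfl⟩), 0, ?_⟩
      rw [h]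
      simp
    · refine ⟨0, Submodule.zero_mem _, Pi.single i (monomial (β - Finsupp.single i d) 1), ?_⟩
      rw [zero_add, Finset.sum_eq_single i]
      · rw [Pi.single_eq_same, h, mul_add, X_pow_eq_monomial, C_mul_monomial, monomial_mul,
          hsub β i hi, smul_monomial]
        simp
      · intro j _ hj
        rw [Pi.single_eq_of_ne hj, zero_mul]
      · intro hi'
        exact absurd (Finset.mem_univ i) hi'
  rw [hg'] at hW
  exact hW

theorem card_zeros_le {d : ℕ} (hd : 1 ≤ d) (P : ι → MvPolynomial ι ℝ)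
    (hP : ∀ i, (P i).totalDegree ≤ d) :
    ∃ Bad : Set ℝ, Bad.Finite ∧ ∀ ε, ε ∉ Bad → ∀ S : Finset (ι → ℝ),
      (∀ x ∈ S, ∀ i, MvPolynomial.eval x (P i + C ε * X i ^ d) = 0) →
      S.card ≤ d ^ Fintype.card ι := by
  classical
  obtain ⟨Bad, hfin, hB⟩ := reduce_box hd P hP (d ^ Fintype.card ι + 1)
  refine ⟨Bad, hfin, fun ε hε S hS => ?_⟩
  by_contra hcon
  push Not at hcon
  obtain ⟨S', hS'S, hc⟩ := Finset.exists_subset_card_eq
    (show d ^ Fintype.card ι + 1 ≤ S.card from hcon)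
  obtain ⟨hfd, hfr⟩ := finrank_box_le (ι := ι) d
  obtain ⟨Ev, hEv⟩ : ∃ Ev : box ι d →ₗ[ℝ] (S' → ℝ), ∀ b x,
      Ev b x = MvPolynomial.eval (x : ι → ℝ) (b : MvPolynomial ι ℝ) := by
    refine ⟨LinearMap.pi fun x : S' =>
      (MvPolynomial.aeval (x : ι → ℝ) : MvPolynomial ι ℝ →ₐ[ℝ] ℝ).toLinearMap ∘ₗ
        (box ι d).subtype, fun b x => ?_⟩
    simp [MvPolynomial.aeval_eq_eval]
  have hsurj : Function.Surjective Ev := by
    intro v
    obtain ⟨f, hf1, hf2⟩ := interp S' (fun x => if h : x ∈ S' then v ⟨x, h⟩ else 0)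
    obtain ⟨b, hb, h, hh⟩ := hB ε hε f (hf1.trans hc.le)
    refine ⟨⟨b, hb⟩, funext fun x => ?_⟩
    rw [hEv]
    have h1 := hf2 x x.2
    rw [dif_pos x.2, hh, map_add, map_sum, Finset.sum_eq_zero, add_zero] at h1
    · exact h1
    · intro i _
      rw [map_mul, hS x (hS'S x.2) i, mul_zero]
  have h1 := LinearMap.finrank_range_le Ev
  rw [LinearMap.range_eq_top.2 hsurj, finrank_top, Module.finrank_fintype_fun_eq_card,
    Fintype.card_coe, hc] at h1
  omega

/-- The nonsingular zeros persist for small `ε` (`loc_exists` for `g (x, l) i = P i x + l x_i^d` at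
`(x, 0)`); choose a small `ε` outside `Bad`. The variables `κ` are renamed away (`κ` is empty). -/
theorem kh_zero {κ : Type} [Fintype κ] [IsEmpty κ] {d : ℕ} (hd : 1 ≤ d) :
    Kh ι κ d (d ^ Fintype.card ι) := by
  classical
  intro c P hP S hS
  obtain ⟨P', hP'⟩ : ∃ P' : ι → MvPolynomial ι ℝ, P' = fun i =>
      rename (Equiv.sumEmpty ι κ) (P i) := ⟨_, rfl⟩
  have hP'd : ∀ i, (P' i).totalDegree ≤ d := by
    intro i
    rw [hP']
    exact (totalDegree_rename_le _ _).trans (hP i)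
  have hpt : ∀ x : ι → ℝ, x ∘ (Equiv.sumEmpty ι κ) = pt c x := by
    intro x
    funext j
    rcases j with j | j
    · rfl
    · exact isEmptyElim j
  have hev : ∀ i x, MvPolynomial.eval x (P' i) = ev c (P i) x := by
    intro i x
    rw [hP']
    show MvPolynomial.eval x (rename _ (P i)) = _
    rw [eval_rename, hpt]
    rfl
  obtain ⟨Bad, hfin, hB⟩ := card_zeros_le hd P' hP'd
  -- local solutions
  have hloc : ∀ s ∈ S, ∀ U ∈ 𝓝 s, ∀ᶠ l in 𝓝 (0 : ℝ), ∃ x ∈ U,
      ∀ i, MvPolynomial.eval x (P' i + C l * X i ^ d) = 0 := by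
    intro s hs U hU
    obtain ⟨hz, hj⟩ := hS s hs
    obtain ⟨g, hg⟩ : ∃ g : (ι → ℝ) × ℝ → (ι → ℝ), g = fun q i =>
      ev c (P i) q.1 + q.2 * q.1 i ^ d := ⟨_, rfl⟩
    have h1 : HasStrictFDerivAt (fun q : (ι → ℝ) × ℝ => fun i => ev c (P i) q.1)
        ((sysD c P s).comp (ContinuousLinearMap.fst ℝ (ι → ℝ) ℝ)) (s, (0 : ℝ)) :=
      HasStrictFDerivAt.comp (g := fun y i => ev c (P i) y) (f := Prod.fst) (s, (0 : ℝ))
        (sys_hasStrictFDerivAt c P s) hasStrictFDerivAt_fst
    obtain ⟨D, hD⟩ : ∃ D : (ι → ℝ) × ℝ →L[ℝ] (ι → ℝ), D =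
      ContinuousLinearMap.pi fun i => (s i ^ d) • ContinuousLinearMap.snd ℝ (ι → ℝ) ℝ := ⟨_, rfl⟩
    have h2 : HasStrictFDerivAt (fun q : (ι → ℝ) × ℝ => fun i => q.2 * q.1 i ^ d) D
        (s, (0 : ℝ)) := by
      rw [hD, hasStrictFDerivAt_pi]
      intro i
      have k1 : HasStrictFDerivAt (fun q : (ι → ℝ) × ℝ => q.1 i)
          ((ContinuousLinearMap.proj i).comp (ContinuousLinearMap.fst ℝ (ι → ℝ) ℝ))
          (s, (0 : ℝ)) :=
        ((ContinuousLinearMap.proj i : (ι → ℝ) →L[ℝ] ℝ).comp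
          (ContinuousLinearMap.fst ℝ (ι → ℝ) ℝ)).hasStrictFDerivAt
      have k2 := (hasStrictFDerivAt_snd (𝕜 := ℝ) (p := (s, (0 : ℝ)))).mul (k1.pow d)
      refine k2.congr_fderiv ?_
      ext q <;> simp
    have h3 : HasStrictFDerivAt g (((sysD c P s).comp (ContinuousLinearMap.fst ℝ (ι → ℝ) ℝ)) + D)
        (s, (0 : ℝ)) := by
      rw [hg]
      exact h1.add h2
    have hinj : ∀ v : ι → ℝ,
        (((sysD c P s).comp (ContinuousLinearMap.fst ℝ (ι → ℝ) ℝ)) + D) (v, 0) = 0 → v = 0 := by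
      intro v hv
      have hdet : LinearMap.det ((sysD c P s : (ι → ℝ) →L[ℝ] (ι → ℝ)) :
          (ι → ℝ) →ₗ[ℝ] (ι → ℝ)) ≠ 0 := by
        have := det_sysD c P s
        rw [ContinuousLinearMap.det] at this
        rw [this]
        exact hj
      have hv1 : sysD c P s v = 0 := by
        rw [hD] at hv
        funext i
        have := congrFun hv i
        simpa using this
      have hv2 : LinearMap.equivOfDetNeZero _ hdet v = LinearMap.equivOfDetNeZero _ hdet 0 := by
        rw [map_zero]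
        exact hv1
      exact (LinearMap.equivOfDetNeZero _ hdet).injective hv2
    have h4 := loc_exists h3 hinj U hU
    have h5 : g (s, (0 : ℝ)) = 0 := by
      rw [hg]
      funext i
      simp [hz i]
    filter_upwards [h4] with l hl
    obtain ⟨x, hx, hgx⟩ := hl
    refine ⟨x, hx, fun i => ?_⟩
    rw [h5, hg] at hgx
    have h6 := congrFun hgx i
    rw [map_add, hev, map_mul, eval_C, map_pow, eval_X]
    exact h6
  -- disjoint neighbourhoods
  obtain ⟨U, hU, hdis⟩ := (S.finite_toSet).t2_separation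
  have hev2 : ∀ᶠ l in 𝓝 (0 : ℝ), ∀ s ∈ S, ∃ x ∈ U s,
      ∀ i, MvPolynomial.eval x (P' i + C l * X i ^ d) = 0 :=
    (Finset.eventually_all S).2 fun s hs => hloc s hs (U s) ((hU s).2.mem_nhds (hU s).1)
  have hbad : ∀ᶠ l in 𝓝[≠] (0 : ℝ), l ∉ Bad := by
    have h1 : (Bad \ {0}).Finite := hfin.sdiff
    have h2 : ∀ᶠ l in 𝓝 (0 : ℝ), l ∉ Bad \ {0} :=
      h1.isClosed.isOpen_compl.mem_nhds (fun h => h.2 rfl)
    filter_upwards [mem_nhdsWithin_of_mem_nhds h2, self_mem_nhdsWithin] with l hl hl0 hlB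
    exact hl ⟨hlB, hl0⟩
  obtain ⟨l, hl1, hl2⟩ := ((hev2.filter_mono nhdsWithin_le_nhds).and hbad).exists
  choose! y hy1 hy2 using hl1
  have hinj : Set.InjOn y S := by
    intro s hs t ht hst
    by_contra hne
    have h1 := hdis hs ht hne
    exact Set.disjoint_left.1 h1 (hy1 s hs) (hst ▸ hy1 t ht)
  rw [← Finset.card_image_of_injOn hinj]
  refine hB l hl2 _ fun x hx i => ?_
  obtain ⟨s, hs, rfl⟩ := Finset.mem_image.1 hx
  exact hy2 s hs i

end Pool.Agent.KV
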