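import Mathlib

/-!
# Module Count: the number of points of the fibres

`Z` is compact in `E × [0, 1]`; near every point of `Z` the fibres have at most one point; the
points of `Z` outside the finite set `B` persist. Then the fibre over `1` has at most as many
points as the fibre over `0`, plus the number of elements of `B`.

Fibres are finite (compact and discrete). Let `c l` be the number of points of the fibre over `l`
and `b l` the number of points of `B` over `l`.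
(1) `c l ≤ c l0` for `l` near `l0`: the fibre over `l0` is `x_1, ..., x_m` with neighbourhoods
`U_i` (pairwise disjoint), `V_i`; for `l` near `l0` all points of the fibre over `l` are in some
`U_i` (otherwise a sequence in the compact set `Z` converges to a further point over `l0`), and
each `U_i` contains at most one.
(2) `c l0 ≤ c l + b l0` for `l` near `l0`: the points outside `B` persist.
(3) The set `A` of the `l` in `[0, 1]` with `c l' ≤ c 0 + #{p ∈ B | p.2 ≤ l'}` for all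
`l' ∈ [0, l]` contains `0`, contains a right neighbourhood of each of its points `l < 1` by (1), and
contains its supremum by (2).
-/

namespace Pool.Agent.KV

open Topology Filter

variable {E : Type*} [MetricSpace E]

private theorem fibre_compact {Z : Set (E × ℝ)} (hZ : IsCompact Z) (l : ℝ) :
    IsCompact {x | (x, l) ∈ Z} := by
  have h : {x | (x, l) ∈ Z} = Prod.fst '' (Z ∩ Prod.snd ⁻¹' {l}) := by
    ext x
    constructor
    · intro hx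
      exact ⟨(x, l), ⟨hx, rfl⟩, rfl⟩
    · rintro ⟨⟨y, l'⟩, ⟨hy, hl⟩, rfl⟩
      simp only [Set.mem_preimage, Set.mem_singleton_iff] at hl
      subst hl
      exact hy
  rw [h]
  exact (hZ.inter_right (isClosed_singleton.preimage continuous_snd)).image continuous_fst

theorem fibre_finite {Z : Set (E × ℝ)} (hZ : IsCompact Z)
    (h1 : ∀ p ∈ Z, ∃ U ∈ 𝓝 p.1, ∃ V ∈ 𝓝 p.2, ∀ l ∈ V, ∀ x ∈ U, ∀ x' ∈ U,
      (x, l) ∈ Z → (x', l) ∈ Z → x = x') (l : ℝ) : {x | (x, l) ∈ Z}.Finite := by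
  choose! U hU V hV h using h1
  obtain ⟨t, ht1, ht2⟩ := (fibre_compact hZ l).elim_nhds_subcover (fun x => U (x, l))
    (fun x hx => hU (x, l) hx)
  refine t.finite_toSet.subset ?_
  intro x hx
  obtain ⟨y, hy, hxy⟩ := Set.mem_iUnion₂.1 (ht2 hx)
  have h3 := h (y, l) (ht1 y hy) l (mem_of_mem_nhds (hV (y, l) (ht1 y hy))) x hxy y
    (mem_of_mem_nhds (hU (y, l) (ht1 y hy))) hx (ht1 y hy)
  rw [h3]
  exact hy

theorem fibre_le {Z : Set (E × ℝ)} (hZ : IsCompact Z)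
    (h1 : ∀ p ∈ Z, ∃ U ∈ 𝓝 p.1, ∃ V ∈ 𝓝 p.2, ∀ l ∈ V, ∀ x ∈ U, ∀ x' ∈ U,
      (x, l) ∈ Z → (x', l) ∈ Z → x = x') (l0 : ℝ) :
    ∀ᶠ l in 𝓝 l0, {x | (x, l) ∈ Z}.ncard ≤ {x | (x, l0) ∈ Z}.ncard := by
  have hfin := fibre_finite hZ h1 l0
  choose! U hU V hV h using h1
  set O : Set E := ⋃ x ∈ {x | (x, l0) ∈ Z}, interior (U (x, l0)) with hO
  have hOo : IsOpen O := isOpen_biUnion fun x _ => isOpen_interior
  have hc : IsCompact (Prod.snd '' (Z ∩ Prod.fst ⁻¹' Oᶜ)) :=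
    (hZ.inter_right (hOo.isClosed_compl.preimage continuous_fst)).image continuous_snd
  have hn : l0 ∉ Prod.snd '' (Z ∩ Prod.fst ⁻¹' Oᶜ) := by
    rintro ⟨⟨x, l'⟩, ⟨hx, hxO⟩, hl⟩
    simp only at hl
    subst hl
    apply hxO
    exact Set.mem_biUnion (show x ∈ {x | (x, l') ∈ Z} from hx)
      (mem_interior_iff_mem_nhds.2 (hU (x, l') hx))
  have e1 : ∀ᶠ l in 𝓝 l0, l ∉ Prod.snd '' (Z ∩ Prod.fst ⁻¹' Oᶜ) :=
    hc.isClosed.isOpen_compl.mem_nhds hn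
  have e2 : ∀ᶠ l in 𝓝 l0, ∀ x ∈ {x | (x, l0) ∈ Z}, l ∈ V (x, l0) := by
    rw [Filter.eventually_all_finite hfin]
    intro x hx
    exact hV (x, l0) hx
  filter_upwards [e1, e2] with l hl1 hl2
  have hex : ∀ x' ∈ {x | (x, l) ∈ Z}, ∃ x, (x, l0) ∈ Z ∧ x' ∈ U (x, l0) := by
    intro x' hx'
    by_contra hcon
    apply hl1
    refine ⟨(x', l), ⟨hx', ?_⟩, rfl⟩
    intro hxO
    obtain ⟨x, hx, hxU⟩ := Set.mem_iUnion₂.1 hxO
    exact hcon ⟨x, hx, interior_subset hxU⟩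
  choose! g hg1 hg2 using hex
  refine Set.ncard_le_ncard_of_injOn g (fun x hx => hg1 x hx) ?_ hfin
  intro x hx y hy hxy
  exact h (g x, l0) (hg1 x hx) l (hl2 (g x) (hg1 x hx)) x (hg2 x hx) y
    (by rw [hxy]; exact hg2 y hy) hx hy

theorem le_fibre {Z : Set (E × ℝ)} (hZ : IsCompact Z)
    (h1 : ∀ p ∈ Z, ∃ U ∈ 𝓝 p.1, ∃ V ∈ 𝓝 p.2, ∀ l ∈ V, ∀ x ∈ U, ∀ x' ∈ U,
      (x, l) ∈ Z → (x', l) ∈ Z → x = x') (B : Set (E × ℝ)) (hB : B.Finite)
    (h2 : ∀ p ∈ Z, p ∉ B → ∀ U ∈ 𝓝 p.1, ∀ᶠ l in 𝓝 p.2, l ∈ Set.Icc (0 : ℝ) 1 →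
      ∃ x ∈ U, (x, l) ∈ Z) (l0 : ℝ) :
    ∀ᶠ l in 𝓝 l0, l ∈ Set.Icc (0 : ℝ) 1 →
      {x | (x, l0) ∈ Z}.ncard ≤ {x | (x, l) ∈ Z}.ncard + {p | p ∈ B ∧ p.2 = l0}.ncard := by
  have hfin := fibre_finite hZ h1 l0
  obtain ⟨W, hW1, hW2⟩ := hfin.t2_separation
  have e : ∀ᶠ l in 𝓝 l0, ∀ x ∈ {x | (x, l0) ∈ Z}, (x, l0) ∉ B → l ∈ Set.Icc (0 : ℝ) 1 →
      ∃ y ∈ W x, (y, l) ∈ Z := by
    rw [Filter.eventually_all_finite hfin]
    intro x hx
    by_cases hxB : (x, l0) ∈ B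
    · exact Filter.Eventually.of_forall fun l hl => absurd hxB hl
    · filter_upwards [h2 (x, l0) hx hxB (W x) ((hW1 x).2.mem_nhds (hW1 x).1)] with l hl _ using hl
  filter_upwards [e] with l hl hl01
  have hsub : {x | (x, l0) ∈ Z} ⊆ {x | (x, l0) ∈ Z ∧ (x, l0) ∉ B} ∪
      {x | (x, l0) ∈ Z ∧ (x, l0) ∈ B} := by
    intro x hx
    by_cases hxB : (x, l0) ∈ B
    · exact Or.inr ⟨hx, hxB⟩
    · exact Or.inl ⟨hx, hxB⟩
  have hf1 : {x | (x, l0) ∈ Z ∧ (x, l0) ∉ B}.Finite := hfin.subset fun x hx => hx.1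
  have hf2 : {x | (x, l0) ∈ Z ∧ (x, l0) ∈ B}.Finite := hfin.subset fun x hx => hx.1
  have c1 : {x | (x, l0) ∈ Z ∧ (x, l0) ∉ B}.ncard ≤ {x | (x, l) ∈ Z}.ncard := by
    have hex : ∀ x ∈ {x | (x, l0) ∈ Z ∧ (x, l0) ∉ B}, ∃ y, y ∈ W x ∧ (y, l) ∈ Z := by
      intro x hx
      obtain ⟨y, hy1, hy2⟩ := hl x hx.1 hx.2 hl01
      exact ⟨y, hy1, hy2⟩
    choose! g hg1 hg2 using hex
    refine Set.ncard_le_ncard_of_injOn g (fun x hx => hg2 x hx) ?_ (fibre_finite hZ h1 l)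
    intro x hx y hy hxy
    by_contra hne
    have hd := hW2 (show x ∈ {x | (x, l0) ∈ Z} from hx.1) (show y ∈ {x | (x, l0) ∈ Z} from hy.1) hne
    exact Set.disjoint_left.1 hd (hg1 x hx) (by rw [hxy]; exact hg1 y hy)
  have c2 : {x | (x, l0) ∈ Z ∧ (x, l0) ∈ B}.ncard ≤ {p | p ∈ B ∧ p.2 = l0}.ncard := by
    refine Set.ncard_le_ncard_of_injOn (fun x => (x, l0)) (fun x hx => ⟨hx.2, rfl⟩) ?_
      (hB.subset fun p hp => hp.1)
    intro x _ y _ hxy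
    exact (Prod.mk.inj hxy).1
  calc {x | (x, l0) ∈ Z}.ncard
      ≤ ({x | (x, l0) ∈ Z ∧ (x, l0) ∉ B} ∪ {x | (x, l0) ∈ Z ∧ (x, l0) ∈ B}).ncard :=
        Set.ncard_le_ncard hsub (hf1.union hf2)
    _ ≤ _ := Set.ncard_union_le _ _
    _ ≤ _ := add_le_add c1 c2

theorem count_fibres {Z : Set (E × ℝ)} (hZ : IsCompact Z)
    (h1 : ∀ p ∈ Z, ∃ U ∈ 𝓝 p.1, ∃ V ∈ 𝓝 p.2, ∀ l ∈ V, ∀ x ∈ U, ∀ x' ∈ U,
      (x, l) ∈ Z → (x', l) ∈ Z → x = x') (B : Set (E × ℝ)) (hB : B.Finite)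
    (h2 : ∀ p ∈ Z, p ∉ B → ∀ U ∈ 𝓝 p.1, ∀ᶠ l in 𝓝 p.2, l ∈ Set.Icc (0 : ℝ) 1 →
      ∃ x ∈ U, (x, l) ∈ Z) :
    {x | (x, (1 : ℝ)) ∈ Z}.ncard ≤ {x | (x, (0 : ℝ)) ∈ Z}.ncard + B.ncard := by
  set c : ℝ → ℕ := fun l => {x | (x, l) ∈ Z}.ncard with hc
  set β : ℝ → ℕ := fun l => {p | p ∈ B ∧ p.2 ≤ l}.ncard with hβ
  have hmono : ∀ l l', l ≤ l' → β l ≤ β l' := by
    intro l l' hll
    exact Set.ncard_le_ncard (fun p hp => ⟨hp.1, hp.2.trans hll⟩) (hB.subset fun p hp => hp.1)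
  have hadd : ∀ l l', l < l' → β l + {p | p ∈ B ∧ p.2 = l'}.ncard ≤ β l' := by
    intro l l' hll
    have hd : Disjoint {p | p ∈ B ∧ p.2 ≤ l} {p | p ∈ B ∧ p.2 = l'} := by
      rw [Set.disjoint_left]
      rintro p ⟨_, hp1⟩ ⟨_, hp2⟩
      rw [hp2] at hp1
      exact absurd hp1 (not_le.2 hll)
    have hu := Set.ncard_union_eq hd (hB.subset fun p hp => hp.1) (hB.subset fun p hp => hp.1)
    rw [← hu]
    refine Set.ncard_le_ncard ?_ (hB.subset fun p hp => hp.1)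
    rintro p (⟨hp1, hp2⟩ | ⟨hp1, hp2⟩)
    · exact ⟨hp1, hp2.trans hll.le⟩
    · exact ⟨hp1, hp2.le⟩
  have key : ∀ l ∈ Set.Icc (0 : ℝ) 1, c l ≤ c 0 + β l := by
    by_contra hcon
    push Not at hcon
    obtain ⟨l1, hl1, hbad1⟩ := hcon
    set S : Set ℝ := {l | l ∈ Set.Icc (0 : ℝ) 1 ∧ c 0 + β l < c l} with hS
    have hSne : S.Nonempty := ⟨l1, hl1, hbad1⟩
    have hSbd : BddBelow S := ⟨0, fun l hl => hl.1.1⟩
    set s := sInf S with hs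
    have hs0 : 0 ≤ s := le_csInf hSne fun l hl => hl.1.1
    have hs1 : s ≤ 1 := (csInf_le hSbd ⟨hl1, hbad1⟩).trans hl1.2
    have hlow : ∀ l, 0 ≤ l → l < s → c l ≤ c 0 + β l := by
      intro l hl0 hls
      by_contra hn
      exact absurd (csInf_le hSbd ⟨⟨hl0, hls.le.trans hs1⟩, not_le.1 hn⟩) (not_le.2 hls)
    have hPs : c s ≤ c 0 + β s := by
      rcases hs0.eq_or_lt with h0 | h0
      · rw [← h0]; exact Nat.le_add_right _ _
      · have e := le_fibre hZ h1 B hB h2 s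
        have e' : ∀ᶠ l in 𝓝[<] s, l ∈ Set.Icc (0 : ℝ) 1 → c s ≤ c l + {p | p ∈ B ∧ p.2 = s}.ncard :=
          e.filter_mono nhdsWithin_le_nhds
        have e0 : ∀ᶠ l in 𝓝[<] s, l ∈ Set.Ioo 0 s := Ioo_mem_nhdsLT h0
        obtain ⟨l, hl, hl'⟩ := (e'.and e0).exists
        have h3 := hl ⟨hl'.1.le, hl'.2.le.trans hs1⟩
        have h4 := hlow l hl'.1.le hl'.2
        have h5 := hadd l s hl'.2
        omega
    have e := fibre_le hZ h1 s
    obtain ⟨δ, hδ, hball⟩ := Metric.eventually_nhds_iff.1 e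
    obtain ⟨l, hlS, hls⟩ := exists_lt_of_csInf_lt hSne (show sInf S < s + δ by rw [← hs]; linarith)
    have hsl : s ≤ l := csInf_le hSbd hlS
    have h6 : c l ≤ c s := by
      apply hball
      rw [Real.dist_eq, abs_of_nonneg (by linarith)]
      linarith
    have h7 := hmono s l hsl
    have h8 := hlS.2
    omega
  have hfinal := key 1 ⟨zero_le_one, le_rfl⟩
  have hB1 : β 1 ≤ B.ncard := Set.ncard_le_ncard (fun p hp => hp.1) hB
  calc c 1 ≤ c 0 + β 1 := hfinal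
    _ ≤ _ := Nat.add_le_add_left hB1 _

end Pool.Agent.KV
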