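import Mathlib

/-!
# Module Defs: exponential polynomials

Variables `x_i`, `i : ι`, and `Y_j`, `j : κ`, standing for `exp (x_(c j))`, `c : κ → ι`.
-/

namespace Pool.Agent.KV

open MvPolynomial

variable {ι κ : Type}

/-- The point `(x, exp x_c)`. -/
noncomputable def pt (c : κ → ι) (x : ι → ℝ) : ι ⊕ κ → ℝ :=
  Sum.elim x (fun j => Real.exp (x (c j)))

/-- The value of an exponential polynomial. -/
noncomputable def ev (c : κ → ι) (P : MvPolynomial (ι ⊕ κ) ℝ) (x : ι → ℝ) : ℝ :=
  MvPolynomial.eval (pt c x) P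

open Classical in
/-- The derivative of an exponential polynomial in the direction of `x_i`. -/
noncomputable def dd [Fintype κ] (c : κ → ι) (i : ι) (P : MvPolynomial (ι ⊕ κ) ℝ) :
    MvPolynomial (ι ⊕ κ) ℝ :=
  pderiv (Sum.inl i) P + ∑ j : κ, if c j = i then X (Sum.inr j) * pderiv (Sum.inr j) P else 0

open Classical in
/-- The Jacobian determinant of a system of exponential polynomials. -/
noncomputable def jac [Fintype ι] [Fintype κ] (c : κ → ι) (P : ι → MvPolynomial (ι ⊕ κ) ℝ) :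
    MvPolynomial (ι ⊕ κ) ℝ :=
  Matrix.det (Matrix.of fun i j => dd c j (P i))

/-- Nonsingular zeros of a system. -/
def NonSing [Fintype ι] [Fintype κ] (c : κ → ι) (P : ι → MvPolynomial (ι ⊕ κ) ℝ)
    (x : ι → ℝ) : Prop :=
  (∀ i, ev c (P i) x = 0) ∧ ev c (jac c P) x ≠ 0

/-- Every system of `#ι` exponential polynomials of degree at most `d` in `#ι` variables, with
`#κ` exponentials, has at most `N` nonsingular zeros. -/
def Kh (ι κ : Type) [Fintype ι] [Fintype κ] (d N : ℕ) : Prop :=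
  ∀ (c : κ → ι) (P : ι → MvPolynomial (ι ⊕ κ) ℝ), (∀ i, (P i).totalDegree ≤ d) →
    ∀ S : Finset (ι → ℝ), (∀ x ∈ S, NonSing c P x) → S.card ≤ N

end Pool.Agent.KV
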