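import Pool.Agent.H.MP_b2d7dd_lc.KV.Defs

/-!
# Module Deriv: derivatives of exponential polynomials

`hasStrictFDerivAt_eval`: the chain rule for a polynomial composed with a curve (or any map) of
points, by `MvPolynomial.induction_on`.
-/

namespace Pool.Agent.KV

open MvPolynomial

/-- The chain rule. -/
theorem hasStrictFDerivAt_eval {σ : Type} [Fintype σ] {E : Type*} [NormedAddCommGroup E]
    [NormedSpace ℝ E] {φ : E → σ → ℝ} {φ' : σ → E →L[ℝ] ℝ} {p : E}
    (h : ∀ s, HasStrictFDerivAt (fun q => φ q s) (φ' s) p) (P : MvPolynomial σ ℝ) :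
    HasStrictFDerivAt (fun q => MvPolynomial.eval (φ q) P)
      (∑ s, (MvPolynomial.eval (φ p) (pderiv s P)) • φ' s) p := by
  classical
  induction P using MvPolynomial.induction_on with
  | C a =>
    have e1 : (fun q => MvPolynomial.eval (φ q) (C a : MvPolynomial σ ℝ)) = fun _ => a := by
      funext q
      rw [eval_C]
    have e2 : (∑ s, (MvPolynomial.eval (φ p) (pderiv s (C a : MvPolynomial σ ℝ))) • φ' s) = 0 := by
      refine Finset.sum_eq_zero fun s _ => ?_
      rw [pderiv_C, map_zero, zero_smul]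
    rw [e1, e2]
    exact hasStrictFDerivAt_const a p
  | add P Q hP hQ =>
    have e1 : (fun q => MvPolynomial.eval (φ q) (P + Q)) =
        fun q => MvPolynomial.eval (φ q) P + MvPolynomial.eval (φ q) Q := by
      funext q
      rw [map_add]
    have e2 : (∑ s, (MvPolynomial.eval (φ p) (pderiv s (P + Q))) • φ' s) =
        (∑ s, (MvPolynomial.eval (φ p) (pderiv s P)) • φ' s) +
          ∑ s, (MvPolynomial.eval (φ p) (pderiv s Q)) • φ' s := by
      rw [← Finset.sum_add_distrib]
      refine Finset.sum_congr rfl fun s _ => ?_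
      rw [map_add, map_add, add_smul]
    rw [e1, e2]
    exact hP.add hQ
  | mul_X P i hP =>
    have e1 : (fun q => MvPolynomial.eval (φ q) (P * X i)) =
        fun q => MvPolynomial.eval (φ q) P * φ q i := by
      funext q
      rw [map_mul, eval_X]
    have e2 : (∑ s, (MvPolynomial.eval (φ p) (pderiv s (P * X i))) • φ' s) =
        MvPolynomial.eval (φ p) P • φ' i +
          φ p i • ∑ s, (MvPolynomial.eval (φ p) (pderiv s P)) • φ' s := by
      have e3 : ∀ s, (MvPolynomial.eval (φ p) (pderiv s (P * X i))) • φ' s =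
          (if i = s then MvPolynomial.eval (φ p) P • φ' s else 0) +
            φ p i • ((MvPolynomial.eval (φ p) (pderiv s P)) • φ' s) := by
        intro s
        rw [pderiv_mul, map_add, map_mul, map_mul, eval_X, add_smul, add_comm, pderiv_X]
        congr 1
        · by_cases his : i = s
          · subst his
            rw [if_pos rfl, Pi.single_eq_same, map_one, mul_one]
          · rw [if_neg his, Pi.single_eq_of_ne (Ne.symm (fun h => his h.symm)), map_zero, mul_zero,
              zero_smul]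
        · rw [smul_smul, mul_comm]
      rw [Finset.sum_congr rfl fun s _ => e3 s, Finset.sum_add_distrib, Finset.sum_ite_eq,
        if_pos (Finset.mem_univ i), Finset.smul_sum]
    rw [e1, e2]
    exact hP.mul (h i)

variable {ι κ : Type} [Fintype ι] [Fintype κ]

theorem ev_hasStrictFDerivAt (c : κ → ι) (P : MvPolynomial (ι ⊕ κ) ℝ) (x : ι → ℝ) :
    HasStrictFDerivAt (fun y => ev c P y)
      (∑ i, (ev c (dd c i P) x) •
        (ContinuousLinearMap.proj i : (ι → ℝ) →L[ℝ] ℝ)) x := by
  classical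
  have hφ : ∀ s : ι ⊕ κ, HasStrictFDerivAt (fun q : ι → ℝ => pt c q s)
      (Sum.elim (fun i => (ContinuousLinearMap.proj i : (ι → ℝ) →L[ℝ] ℝ))
        (fun j => Real.exp (x (c j)) • (ContinuousLinearMap.proj (c j) : (ι → ℝ) →L[ℝ] ℝ)) s)
      x := by
    rintro (i | j)
    · exact (ContinuousLinearMap.proj i : (ι → ℝ) →L[ℝ] ℝ).hasStrictFDerivAt
    · have h1 : HasStrictFDerivAt (fun q : ι → ℝ => q (c j))
          (ContinuousLinearMap.proj (c j) : (ι → ℝ) →L[ℝ] ℝ) x :=
        (ContinuousLinearMap.proj (c j) : (ι → ℝ) →L[ℝ] ℝ).hasStrictFDerivAt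
      exact h1.exp
  have h := hasStrictFDerivAt_eval hφ P
  have e : (∑ s, (MvPolynomial.eval (pt c x) (pderiv s P)) •
      (Sum.elim (fun i => (ContinuousLinearMap.proj i : (ι → ℝ) →L[ℝ] ℝ))
        (fun j => Real.exp (x (c j)) • (ContinuousLinearMap.proj (c j) : (ι → ℝ) →L[ℝ] ℝ)) s)) =
      ∑ i, (ev c (dd c i P) x) • (ContinuousLinearMap.proj i : (ι → ℝ) →L[ℝ] ℝ) := by
    rw [Fintype.sum_sum_type]
    simp only [Sum.elim_inl, Sum.elim_inr]
    have e1 : ∀ i, (ev c (dd c i P) x) • (ContinuousLinearMap.proj i : (ι → ℝ) →L[ℝ] ℝ) =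
        (MvPolynomial.eval (pt c x) (pderiv (Sum.inl i) P)) •
          (ContinuousLinearMap.proj i : (ι → ℝ) →L[ℝ] ℝ) +
        ∑ j, if c j = i then (MvPolynomial.eval (pt c x) (pderiv (Sum.inr j) P)) •
          Real.exp (x (c j)) • (ContinuousLinearMap.proj i : (ι → ℝ) →L[ℝ] ℝ) else 0 := by
      intro i
      unfold ev dd
      rw [map_add, add_smul, map_sum, Finset.sum_smul]
      congr 1
      refine Finset.sum_congr rfl fun j _ => ?_
      by_cases hj : c j = i
      · rw [if_pos hj, if_pos hj, map_mul, eval_X, smul_smul]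
        congr 1
        rw [mul_comm]
        rfl
      · rw [if_neg hj, if_neg hj, map_zero, zero_smul]
    rw [Finset.sum_congr rfl fun i _ => e1 i, Finset.sum_add_distrib]
    congr 1
    rw [Finset.sum_comm]
    refine Finset.sum_congr rfl fun j _ => ?_
    rw [Finset.sum_ite_eq, if_pos (Finset.mem_univ _)]
  rw [← e]
  exact h

theorem continuous_ev (c : κ → ι) (P : MvPolynomial (ι ⊕ κ) ℝ) :
    Continuous (fun x => ev c P x) :=
  continuous_iff_continuousAt.2 fun x => (ev_hasStrictFDerivAt c P x).continuousAt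

private theorem Deriv_deg {σ : Type} (s : σ) (P : MvPolynomial σ ℝ) :
    (pderiv s P).totalDegree ≤ P.totalDegree ∧ (X s * pderiv s P).totalDegree ≤ P.totalDegree := by
  classical
  have hP : P = ∑ m ∈ P.support, monomial m (coeff m P) := (support_sum_monomial_coeff P).symm
  have hdeg : ∀ m ∈ P.support, (m.sum fun _ e => e) ≤ P.totalDegree := fun m hm =>
    le_totalDegree hm
  constructor
  · have e1 : pderiv s P = ∑ m ∈ P.support, pderiv s (monomial m (coeff m P)) := by
      conv_lhs => rw [hP]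
      rw [map_sum]
    rw [e1]
    refine totalDegree_finsetSum_le fun m hm => ?_
    rw [pderiv_monomial]
    refine (totalDegree_monomial_le _ _).trans (le_trans ?_ (hdeg m hm))
    have h3 : ((m - Finsupp.single s 1) : σ →₀ ℕ) ≤ m := tsub_le_self
    obtain ⟨a, ha⟩ := exists_add_of_le h3
    have h4 : (m.sum fun _ e => e) =
        ((m - Finsupp.single s 1).sum fun _ e => e) + (a.sum fun _ e => e) := by
      conv_lhs => rw [ha]
      exact Finsupp.sum_add_index' (fun _ => rfl) (fun _ _ _ => rfl)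
    rw [h4]
    exact Nat.le_add_right _ _
  · have e1 : X s * pderiv s P = ∑ m ∈ P.support, X s * pderiv s (monomial m (coeff m P)) := by
      conv_lhs => rw [hP]
      rw [map_sum, Finset.mul_sum]
    rw [e1]
    refine totalDegree_finsetSum_le fun m hm => ?_
    rw [X_mul_pderiv_monomial]
    refine (totalDegree_smul_le _ _).trans ?_
    exact (totalDegree_monomial_le _ _).trans (hdeg m hm)

theorem totalDegree_dd (c : κ → ι) (i : ι) (P : MvPolynomial (ι ⊕ κ) ℝ) :
    (dd c i P).totalDegree ≤ P.totalDegree := by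
  classical
  unfold dd
  refine (totalDegree_add _ _).trans (max_le (Deriv_deg _ P).1 ?_)
  refine totalDegree_finsetSum_le fun j _ => ?_
  by_cases hj : c j = i
  · rw [if_pos hj]
    exact (Deriv_deg _ P).2
  · rw [if_neg hj, totalDegree_zero]
    exact Nat.zero_le _

theorem totalDegree_jac (c : κ → ι) {P : ι → MvPolynomial (ι ⊕ κ) ℝ} {d : ℕ}
    (h : ∀ i, (P i).totalDegree ≤ d) : (jac c P).totalDegree ≤ Fintype.card ι * d := by
  classical
  unfold jac
  rw [Matrix.det_apply']
  refine totalDegree_finsetSum_le fun σ _ => ?_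
  have h1 : (∏ i, (Matrix.of fun i j => dd c j (P i)) (σ i) i).totalDegree ≤
      Fintype.card ι * d := by
    refine (totalDegree_finsetProd _ _).trans ?_
    calc ∑ i, ((Matrix.of fun i j => dd c j (P i)) (σ i) i).totalDegree ≤ ∑ _i : ι, d :=
          Finset.sum_le_sum fun i _ => (totalDegree_dd c i (P (σ i))).trans (h (σ i))
      _ = Fintype.card ι * d := by rw [Finset.sum_const, Finset.card_univ, smul_eq_mul]
  refine (totalDegree_mul _ _).trans ?_
  have h2 : ((((Equiv.Perm.sign σ : ℤˣ) : ℤ) : MvPolynomial (ι ⊕ κ) ℝ)).totalDegree = 0 := by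
    have e : ((((Equiv.Perm.sign σ : ℤˣ) : ℤ) : MvPolynomial (ι ⊕ κ) ℝ)) =
        C (((Equiv.Perm.sign σ : ℤˣ) : ℤ) : ℝ) := by
      rw [map_intCast]
    rw [e, totalDegree_C]
  rw [h2, zero_add]
  exact h1

/-- The value of the Jacobian determinant. -/
theorem ev_jac [DecidableEq ι] (c : κ → ι) (P : ι → MvPolynomial (ι ⊕ κ) ℝ) (x : ι → ℝ) :
    ev c (jac c P) x = Matrix.det (Matrix.of fun i j => ev c (dd c j (P i)) x) := by
  have hinst : (fun a b => Classical.propDecidable (a = b) : DecidableEq ι) = ‹DecidableEq ι› :=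
    Subsingleton.elim _ _
  unfold ev jac
  rw [hinst, RingHom.map_det]
  rfl

/-- The derivative of the map given by a system, as a continuous linear map. -/
noncomputable def sysD (c : κ → ι) (P : ι → MvPolynomial (ι ⊕ κ) ℝ) (x : ι → ℝ) :
    (ι → ℝ) →L[ℝ] (ι → ℝ) :=
  ContinuousLinearMap.pi fun i => ∑ j, (ev c (dd c j (P i)) x) •
    (ContinuousLinearMap.proj j : (ι → ℝ) →L[ℝ] ℝ)

theorem sys_hasStrictFDerivAt (c : κ → ι) (P : ι → MvPolynomial (ι ⊕ κ) ℝ) (x : ι → ℝ) :
    HasStrictFDerivAt (fun y i => ev c (P i) y) (sysD c P x) x := by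
  unfold sysD
  exact hasStrictFDerivAt_pi.2 fun i => ev_hasStrictFDerivAt c (P i) x

theorem det_sysD (c : κ → ι) (P : ι → MvPolynomial (ι ⊕ κ) ℝ) (x : ι → ℝ) :
    (sysD c P x).det = ev c (jac c P) x := by
  classical
  rw [ev_jac, ContinuousLinearMap.det, ← LinearMap.det_toLin']
  congr 1
  ext i j
  simp [sysD, Matrix.toLin'_apply, Matrix.mulVec, dotProduct]

/-- Subtracting constants does not change the Jacobian. -/
theorem jac_sub_C (c : κ → ι) (P : ι → MvPolynomial (ι ⊕ κ) ℝ) (a : ι → ℝ) :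
    jac c (fun i => P i - C (a i)) = jac c P := by
  classical
  have e : ∀ i j, dd c j (P i - C (a i)) = dd c j (P i) := by
    intro i j
    unfold dd
    simp only [map_sub, pderiv_C, sub_zero]
  unfold jac
  simp only [e]

theorem totalDegree_sub_C_le {σ : Type} (P : MvPolynomial σ ℝ) (a : ℝ) :
    (P - C a).totalDegree ≤ P.totalDegree :=
  MvPolynomial.totalDegree_sub_C_le P a

/-- A kernel vector of the Jacobian matrix at a singular point. -/
theorem exists_kernel (c : κ → ι) (P : ι → MvPolynomial (ι ⊕ κ) ℝ) (x : ι → ℝ)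
    (h : ev c (jac c P) x = 0) :
    ∃ v : ι → ℝ, v ≠ 0 ∧ ∀ i, ∑ j, ev c (dd c j (P i)) x * v j = 0 := by
  classical
  rw [ev_jac] at h
  obtain ⟨v, hv, h0⟩ := Matrix.exists_mulVec_eq_zero_iff.2 h
  exact ⟨v, hv, fun i => congrFun h0 i⟩

end Pool.Agent.KV
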