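import Pool.Agent.H.MP_b2d7dd_lc.KV.Deriv

/-!
# Module Ex: expressions in one variable and their systems

Expressions with the variable `y > 0` and positive constants; `rv y e` is the real value
(`s ^ t = exp (t log s)`). `Nd e` is the type of the occurrences of powers (nodes). For a type `N`
with a map `m : Nd e → N` there are the variables `none` (for `y`), `some (inl ν)` (for
`u_ν = log s_ν`) and `some (inr ν)` (for `v_ν = t_ν u_ν`), `ν : N`, and their exponentials. `pv e m`
is the polynomial of the value, `eA e m ν`, `eB e m ν` are the equations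
`exp u_ν = value of the base`, `v_ν = value of the exponent * u_ν` of the node `ν`.
-/

namespace Pool.Agent.KV

open MvPolynomial

/-- Expressions. -/
inductive Ex : Type
  | cst (a : ℝ) : Ex
  | y : Ex
  | add (s t : Ex) : Ex
  | mul (s t : Ex) : Ex
  | pow (s t : Ex) : Ex

/-- The constants are positive. -/
def Ex.Pos : Ex → Prop
  | .cst a => 0 < a
  | .y => True
  | .add s t => s.Pos ∧ t.Pos
  | .mul s t => s.Pos ∧ t.Pos
  | .pow s t => s.Pos ∧ t.Pos

/-- The real value. -/
noncomputable def Ex.rv (z : ℝ) : Ex → ℝ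
  | .cst a => a
  | .y => z
  | .add s t => s.rv z + t.rv z
  | .mul s t => s.rv z * t.rv z
  | .pow s t => Real.exp (t.rv z * Real.log (s.rv z))

/-- The size. -/
def Ex.sz : Ex → ℕ
  | .cst _ => 1
  | .y => 1
  | .add s t => s.sz + t.sz + 1
  | .mul s t => s.sz + t.sz + 1
  | .pow s t => s.sz + t.sz + 1

theorem Ex.rv_pos {e : Ex} (he : e.Pos) {z : ℝ} (hz : 0 < z) : 0 < e.rv z := by
  induction e with
  | cst a => exact he
  | y => exact hz
  | add s t hs ht => exact add_pos (hs he.1) (ht he.2)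
  | mul s t hs ht => exact mul_pos (hs he.1) (ht he.2)
  | pow s t _ _ => exact Real.exp_pos _

theorem Ex.analytic {e : Ex} (he : e.Pos) :
    AnalyticOnNhd ℝ (fun z => e.rv z) (Set.Ioi (0 : ℝ)) := by
  induction e with
  | cst a => exact fun z _ => analyticAt_const
  | y => exact fun z _ => analyticAt_id
  | add s t hs ht => exact fun z hz => (hs he.1 z hz).add (ht he.2 z hz)
  | mul s t hs ht => exact fun z hz => (hs he.1 z hz).mul (ht he.2 z hz)
  | pow s t hs ht =>
    exact fun z hz => ((ht he.2 z hz).mul ((hs he.1 z hz).log (Ex.rv_pos he.1 hz))).rexp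

/-- The nodes. -/
def Ex.Nd : Ex → Type
  | .cst _ => Empty
  | .y => Empty
  | .add s t => s.Nd ⊕ t.Nd
  | .mul s t => s.Nd ⊕ t.Nd
  | .pow s t => Option (s.Nd ⊕ t.Nd)

noncomputable instance Ex.fintypeNd : (e : Ex) → Fintype e.Nd
  | .cst _ => inferInstanceAs (Fintype Empty)
  | .y => inferInstanceAs (Fintype Empty)
  | .add s t => by
      have := Ex.fintypeNd s
      have := Ex.fintypeNd t
      exact inferInstanceAs (Fintype (s.Nd ⊕ t.Nd))
  | .mul s t => by
      have := Ex.fintypeNd s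
      have := Ex.fintypeNd t
      exact inferInstanceAs (Fintype (s.Nd ⊕ t.Nd))
  | .pow s t => by
      have := Ex.fintypeNd s
      have := Ex.fintypeNd t
      exact inferInstanceAs (Fintype (Option (s.Nd ⊕ t.Nd)))

theorem Ex.card_Nd_le (e : Ex) : Fintype.card e.Nd ≤ e.sz := by
  induction e with
  | cst a =>
    have h : Fintype.card (Ex.cst a).Nd = Fintype.card Empty := Fintype.card_congr (Equiv.refl _)
    rw [h, Fintype.card_empty]
    exact Nat.zero_le _
  | y =>
    have h : Fintype.card Ex.y.Nd = Fintype.card Empty := Fintype.card_congr (Equiv.refl _)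
    rw [h, Fintype.card_empty]
    exact Nat.zero_le _
  | add s t hs ht =>
    have h : Fintype.card (Ex.add s t).Nd = Fintype.card (s.Nd ⊕ t.Nd) :=
      Fintype.card_congr (Equiv.refl _)
    rw [h, Fintype.card_sum]
    show _ ≤ s.sz + t.sz + 1
    omega
  | mul s t hs ht =>
    have h : Fintype.card (Ex.mul s t).Nd = Fintype.card (s.Nd ⊕ t.Nd) :=
      Fintype.card_congr (Equiv.refl _)
    rw [h, Fintype.card_sum]
    show _ ≤ s.sz + t.sz + 1
    omega
  | pow s t hs ht =>
    have h : Fintype.card (Ex.pow s t).Nd = Fintype.card (Option (s.Nd ⊕ t.Nd)) :=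
      Fintype.card_congr (Equiv.refl _)
    rw [h, Fintype.card_option, Fintype.card_sum]
    show _ ≤ s.sz + t.sz + 1
    omega

/-- The ring of the polynomials. -/
abbrev PR (N : Type) : Type := MvPolynomial (Option (N ⊕ N) ⊕ (N ⊕ N)) ℝ

/-- The polynomial of the value. -/
noncomputable def Ex.pv {N : Type} : (e : Ex) → (e.Nd → N) → PR N
  | .cst a, _ => C a
  | .y, _ => X (Sum.inl none)
  | .add s t, m => s.pv (fun ν => m (Sum.inl ν)) + t.pv (fun ν => m (Sum.inr ν))
  | .mul s t, m => s.pv (fun ν => m (Sum.inl ν)) * t.pv (fun ν => m (Sum.inr ν))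
  | .pow _ _, m => X (Sum.inr (Sum.inr (m none)))

/-- The equations `exp u_ν = s_ν`. -/
noncomputable def Ex.eA {N : Type} : (e : Ex) → (e.Nd → N) → e.Nd → PR N
  | .cst _, _ => fun ν => nomatch ν
  | .y, _ => fun ν => nomatch ν
  | .add s t, m => fun ν => Sum.elim (s.eA (fun ν => m (Sum.inl ν)))
      (t.eA (fun ν => m (Sum.inr ν))) ν
  | .mul s t, m => fun ν => Sum.elim (s.eA (fun ν => m (Sum.inl ν)))
      (t.eA (fun ν => m (Sum.inr ν))) ν
  | .pow s t, m => fun ν => Option.elim ν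
      (X (Sum.inr (Sum.inl (m none))) - s.pv (fun ν => m (some (Sum.inl ν))))
      (Sum.elim (s.eA (fun ν => m (some (Sum.inl ν)))) (t.eA (fun ν => m (some (Sum.inr ν)))))

/-- The equations `v_ν = t_ν u_ν`. -/
noncomputable def Ex.eB {N : Type} : (e : Ex) → (e.Nd → N) → e.Nd → PR N
  | .cst _, _ => fun ν => nomatch ν
  | .y, _ => fun ν => nomatch ν
  | .add s t, m => fun ν => Sum.elim (s.eB (fun ν => m (Sum.inl ν)))
      (t.eB (fun ν => m (Sum.inr ν))) ν
  | .mul s t, m => fun ν => Sum.elim (s.eB (fun ν => m (Sum.inl ν)))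
      (t.eB (fun ν => m (Sum.inr ν))) ν
  | .pow s t, m => fun ν => Option.elim ν
      (X (Sum.inl (some (Sum.inr (m none)))) -
        t.pv (fun ν => m (some (Sum.inr ν))) * X (Sum.inl (some (Sum.inl (m none)))))
      (Sum.elim (s.eB (fun ν => m (some (Sum.inl ν)))) (t.eB (fun ν => m (some (Sum.inr ν)))))

/-- The functions `u_ν`. -/
noncomputable def Ex.uF : (e : Ex) → e.Nd → ℝ → ℝ
  | .cst _ => fun ν => nomatch ν
  | .y => fun ν => nomatch ν
  | .add s t => fun ν => Sum.elim s.uF t.uF ν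
  | .mul s t => fun ν => Sum.elim s.uF t.uF ν
  | .pow s t => fun ν => Option.elim ν (fun z => Real.log (s.rv z)) (Sum.elim s.uF t.uF)

/-- The functions `v_ν`. -/
noncomputable def Ex.vF : (e : Ex) → e.Nd → ℝ → ℝ
  | .cst _ => fun ν => nomatch ν
  | .y => fun ν => nomatch ν
  | .add s t => fun ν => Sum.elim s.vF t.vF ν
  | .mul s t => fun ν => Sum.elim s.vF t.vF ν
  | .pow s t => fun ν => Option.elim ν (fun z => t.rv z * Real.log (s.rv z))
      (Sum.elim s.vF t.vF)

variable {N : Type}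

theorem Ex.totalDegree_pv (e : Ex) (m : e.Nd → N) : (e.pv m).totalDegree ≤ e.sz := by
  induction e with
  | cst a =>
    show (C a : PR N).totalDegree ≤ 1
    rw [totalDegree_C]
    exact Nat.zero_le _
  | y =>
    show (X (Sum.inl none) : PR N).totalDegree ≤ 1
    rw [totalDegree_X]
  | add s t hs ht =>
    show (s.pv (fun ν => m (Sum.inl ν)) + t.pv (fun ν => m (Sum.inr ν))).totalDegree ≤
      s.sz + t.sz + 1
    have h1 := totalDegree_add (s.pv (fun ν => m (Sum.inl ν))) (t.pv (fun ν => m (Sum.inr ν)))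
    have h2 := hs (fun ν => m (Sum.inl ν))
    have h3 := ht (fun ν => m (Sum.inr ν))
    omega
  | mul s t hs ht =>
    show (s.pv (fun ν => m (Sum.inl ν)) * t.pv (fun ν => m (Sum.inr ν))).totalDegree ≤
      s.sz + t.sz + 1
    have h1 := totalDegree_mul (s.pv (fun ν => m (Sum.inl ν))) (t.pv (fun ν => m (Sum.inr ν)))
    have h2 := hs (fun ν => m (Sum.inl ν))
    have h3 := ht (fun ν => m (Sum.inr ν))
    omega
  | pow s t _ _ =>
    show (X (Sum.inr (Sum.inr (m none))) : PR N).totalDegree ≤ s.sz + t.sz + 1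
    rw [totalDegree_X]
    omega

theorem Ex.totalDegree_eA (e : Ex) (m : e.Nd → N) (ν : e.Nd) :
    (e.eA m ν).totalDegree ≤ e.sz + 1 := by
  induction e with
  | cst a => exact nomatch ν
  | y => exact nomatch ν
  | add s t hs ht =>
    rcases ν with ν | ν
    · have h : (s.eA (fun ν => m (Sum.inl ν)) ν).totalDegree ≤ s.sz + 1 := hs _ ν
      show (s.eA (fun ν => m (Sum.inl ν)) ν).totalDegree ≤ s.sz + t.sz + 1 + 1
      omega
    · have h : (t.eA (fun ν => m (Sum.inr ν)) ν).totalDegree ≤ t.sz + 1 := ht _ ν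
      show (t.eA (fun ν => m (Sum.inr ν)) ν).totalDegree ≤ s.sz + t.sz + 1 + 1
      omega
  | mul s t hs ht =>
    rcases ν with ν | ν
    · have h : (s.eA (fun ν => m (Sum.inl ν)) ν).totalDegree ≤ s.sz + 1 := hs _ ν
      show (s.eA (fun ν => m (Sum.inl ν)) ν).totalDegree ≤ s.sz + t.sz + 1 + 1
      omega
    · have h : (t.eA (fun ν => m (Sum.inr ν)) ν).totalDegree ≤ t.sz + 1 := ht _ ν
      show (t.eA (fun ν => m (Sum.inr ν)) ν).totalDegree ≤ s.sz + t.sz + 1 + 1
      omega
  | pow s t hs ht =>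
    rcases ν with _ | ν | ν
    · show (X (Sum.inr (Sum.inl (m none))) -
        s.pv (fun ν => m (some (Sum.inl ν))) : PR N).totalDegree ≤ s.sz + t.sz + 1 + 1
      have h1 := totalDegree_sub (X (Sum.inr (Sum.inl (m none))) : PR N)
        (s.pv (fun ν => m (some (Sum.inl ν))))
      have h2 := Ex.totalDegree_pv s (fun ν => m (some (Sum.inl ν)))
      rw [totalDegree_X] at h1
      omega
    · have h : (s.eA (fun ν => m (some (Sum.inl ν))) ν).totalDegree ≤ s.sz + 1 := hs _ ν
      show (s.eA (fun ν => m (some (Sum.inl ν))) ν).totalDegree ≤ s.sz + t.sz + 1 + 1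
      omega
    · have h : (t.eA (fun ν => m (some (Sum.inr ν))) ν).totalDegree ≤ t.sz + 1 := ht _ ν
      show (t.eA (fun ν => m (some (Sum.inr ν))) ν).totalDegree ≤ s.sz + t.sz + 1 + 1
      omega

theorem Ex.totalDegree_eB (e : Ex) (m : e.Nd → N) (ν : e.Nd) :
    (e.eB m ν).totalDegree ≤ e.sz + 1 := by
  induction e with
  | cst a => exact nomatch ν
  | y => exact nomatch ν
  | add s t hs ht =>
    rcases ν with ν | ν
    · have h : (s.eB (fun ν => m (Sum.inl ν)) ν).totalDegree ≤ s.sz + 1 := hs _ ν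
      show (s.eB (fun ν => m (Sum.inl ν)) ν).totalDegree ≤ s.sz + t.sz + 1 + 1
      omega
    · have h : (t.eB (fun ν => m (Sum.inr ν)) ν).totalDegree ≤ t.sz + 1 := ht _ ν
      show (t.eB (fun ν => m (Sum.inr ν)) ν).totalDegree ≤ s.sz + t.sz + 1 + 1
      omega
  | mul s t hs ht =>
    rcases ν with ν | ν
    · have h : (s.eB (fun ν => m (Sum.inl ν)) ν).totalDegree ≤ s.sz + 1 := hs _ ν
      show (s.eB (fun ν => m (Sum.inl ν)) ν).totalDegree ≤ s.sz + t.sz + 1 + 1
      omega
    · have h : (t.eB (fun ν => m (Sum.inr ν)) ν).totalDegree ≤ t.sz + 1 := ht _ ν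
      show (t.eB (fun ν => m (Sum.inr ν)) ν).totalDegree ≤ s.sz + t.sz + 1 + 1
      omega
  | pow s t hs ht =>
    rcases ν with _ | ν | ν
    · show (X (Sum.inl (some (Sum.inr (m none)))) -
        t.pv (fun ν => m (some (Sum.inr ν))) *
          X (Sum.inl (some (Sum.inl (m none)))) : PR N).totalDegree ≤ s.sz + t.sz + 1 + 1
      have h1 := totalDegree_sub (X (Sum.inl (some (Sum.inr (m none)))) : PR N)
        (t.pv (fun ν => m (some (Sum.inr ν))) * X (Sum.inl (some (Sum.inl (m none)))))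
      have h3 := totalDegree_mul (t.pv (fun ν => m (some (Sum.inr ν))))
        (X (Sum.inl (some (Sum.inl (m none)))) : PR N)
      have h2 := Ex.totalDegree_pv t (fun ν => m (some (Sum.inr ν)))
      rw [totalDegree_X] at h1 h3
      omega
    · have h : (s.eB (fun ν => m (some (Sum.inl ν))) ν).totalDegree ≤ s.sz + 1 := hs _ ν
      show (s.eB (fun ν => m (some (Sum.inl ν))) ν).totalDegree ≤ s.sz + t.sz + 1 + 1
      omega
    · have h : (t.eB (fun ν => m (some (Sum.inr ν))) ν).totalDegree ≤ t.sz + 1 := ht _ ν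
      show (t.eB (fun ν => m (some (Sum.inr ν))) ν).totalDegree ≤ s.sz + t.sz + 1 + 1
      omega

/-- `x` is the point of the curve at `z`, as far as the nodes of `e` are concerned. -/
def Ex.At (e : Ex) (m : e.Nd → N) (x : Option (N ⊕ N) → ℝ) (z : ℝ) : Prop :=
  x none = z ∧ ∀ ν, x (some (Sum.inl (m ν))) = e.uF ν z ∧ x (some (Sum.inr (m ν))) = e.vF ν z

theorem Ex.ev_pv {e : Ex} {m : e.Nd → N} {x : Option (N ⊕ N) → ℝ} {z : ℝ}
    (h : e.At m x z) : ev some (e.pv m) x = e.rv z := by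
  induction e with
  | cst a =>
    show MvPolynomial.eval (pt some x) (C a) = a
    rw [eval_C]
  | y =>
    show MvPolynomial.eval (pt some x) (X (Sum.inl none)) = z
    rw [eval_X]
    exact h.1
  | add s t hs ht =>
    have h1 := hs (m := fun ν => m (Sum.inl ν)) ⟨h.1, fun ν => h.2 (Sum.inl ν)⟩
    have h2 := ht (m := fun ν => m (Sum.inr ν)) ⟨h.1, fun ν => h.2 (Sum.inr ν)⟩
    show MvPolynomial.eval (pt some x) (s.pv (fun ν => m (Sum.inl ν)) +
      t.pv (fun ν => m (Sum.inr ν))) = s.rv z + t.rv z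
    rw [map_add, ← h1, ← h2]
    rfl
  | mul s t hs ht =>
    have h1 := hs (m := fun ν => m (Sum.inl ν)) ⟨h.1, fun ν => h.2 (Sum.inl ν)⟩
    have h2 := ht (m := fun ν => m (Sum.inr ν)) ⟨h.1, fun ν => h.2 (Sum.inr ν)⟩
    show MvPolynomial.eval (pt some x) (s.pv (fun ν => m (Sum.inl ν)) *
      t.pv (fun ν => m (Sum.inr ν))) = s.rv z * t.rv z
    rw [map_mul, ← h1, ← h2]
    rfl
  | pow s t _ _ =>
    show MvPolynomial.eval (pt some x) (X (Sum.inr (Sum.inr (m none)))) =
      Real.exp (t.rv z * Real.log (s.rv z))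
    rw [eval_X]
    show Real.exp (x (some (Sum.inr (m none)))) = _
    rw [(h.2 none).2]
    rfl

theorem Ex.ev_eA {e : Ex} (he : e.Pos) {m : e.Nd → N} {x : Option (N ⊕ N) → ℝ} {z : ℝ}
    (hz : 0 < z) (h : e.At m x z) (ν : e.Nd) : ev some (e.eA m ν) x = 0 := by
  induction e with
  | cst a => exact nomatch ν
  | y => exact nomatch ν
  | add s t hs ht =>
    rcases ν with ν | ν
    · exact hs he.1 (m := fun ν => m (Sum.inl ν)) ⟨h.1, fun ν => h.2 (Sum.inl ν)⟩ ν
    · exact ht he.2 (m := fun ν => m (Sum.inr ν)) ⟨h.1, fun ν => h.2 (Sum.inr ν)⟩ ν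
  | mul s t hs ht =>
    rcases ν with ν | ν
    · exact hs he.1 (m := fun ν => m (Sum.inl ν)) ⟨h.1, fun ν => h.2 (Sum.inl ν)⟩ ν
    · exact ht he.2 (m := fun ν => m (Sum.inr ν)) ⟨h.1, fun ν => h.2 (Sum.inr ν)⟩ ν
  | pow s t hs ht =>
    rcases ν with _ | ν | ν
    · have h1 : ev some (s.pv (fun ν => m (some (Sum.inl ν)))) x = s.rv z :=
        Ex.ev_pv ⟨h.1, fun ν => h.2 (some (Sum.inl ν))⟩
      show MvPolynomial.eval (pt some x) (X (Sum.inr (Sum.inl (m none))) -
        s.pv (fun ν => m (some (Sum.inl ν)))) = 0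
      rw [map_sub, eval_X]
      show Real.exp (x (some (Sum.inl (m none)))) -
        ev some (s.pv (fun ν => m (some (Sum.inl ν)))) x = 0
      rw [(h.2 none).1, h1]
      show Real.exp (Real.log (s.rv z)) - s.rv z = 0
      rw [Real.exp_log (Ex.rv_pos he.1 hz), sub_self]
    · exact hs he.1 (m := fun ν => m (some (Sum.inl ν)))
        ⟨h.1, fun ν => h.2 (some (Sum.inl ν))⟩ ν
    · exact ht he.2 (m := fun ν => m (some (Sum.inr ν)))
        ⟨h.1, fun ν => h.2 (some (Sum.inr ν))⟩ ν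

theorem Ex.ev_eB {e : Ex} {m : e.Nd → N} {x : Option (N ⊕ N) → ℝ} {z : ℝ}
    (h : e.At m x z) (ν : e.Nd) : ev some (e.eB m ν) x = 0 := by
  induction e with
  | cst a => exact nomatch ν
  | y => exact nomatch ν
  | add s t hs ht =>
    rcases ν with ν | ν
    · exact hs (m := fun ν => m (Sum.inl ν)) ⟨h.1, fun ν => h.2 (Sum.inl ν)⟩ ν
    · exact ht (m := fun ν => m (Sum.inr ν)) ⟨h.1, fun ν => h.2 (Sum.inr ν)⟩ ν
  | mul s t hs ht =>
    rcases ν with ν | ν
    · exact hs (m := fun ν => m (Sum.inl ν)) ⟨h.1, fun ν => h.2 (Sum.inl ν)⟩ ν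
    · exact ht (m := fun ν => m (Sum.inr ν)) ⟨h.1, fun ν => h.2 (Sum.inr ν)⟩ ν
  | pow s t hs ht =>
    rcases ν with _ | ν | ν
    · have h1 : ev some (t.pv (fun ν => m (some (Sum.inr ν)))) x = t.rv z :=
        Ex.ev_pv ⟨h.1, fun ν => h.2 (some (Sum.inr ν))⟩
      show MvPolynomial.eval (pt some x) (X (Sum.inl (some (Sum.inr (m none)))) -
        t.pv (fun ν => m (some (Sum.inr ν))) * X (Sum.inl (some (Sum.inl (m none))))) = 0
      rw [map_sub, map_mul, eval_X, eval_X]
      show x (some (Sum.inr (m none))) -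
        ev some (t.pv (fun ν => m (some (Sum.inr ν)))) x * x (some (Sum.inl (m none))) = 0
      rw [(h.2 none).1, (h.2 none).2, h1]
      show t.rv z * Real.log (s.rv z) - t.rv z * Real.log (s.rv z) = 0
      rw [sub_self]
    · exact hs (m := fun ν => m (some (Sum.inl ν)))
        ⟨h.1, fun ν => h.2 (some (Sum.inl ν))⟩ ν
    · exact ht (m := fun ν => m (some (Sum.inr ν)))
        ⟨h.1, fun ν => h.2 (some (Sum.inr ν))⟩ ν

end Pool.Agent.KV
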