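import Pool.Agent.H.MP_b2d7dd_lc.KV.Ex

/-!
# Module ExD: the systems of expressions are nonsingular

`dir x w P` is the derivative of the exponential polynomial `P` at `x` in the direction `w`; it is
additive and satisfies the product rule. `kernel`: if `w` is in the kernel of all the equations of
the nodes of `e`, then the derivative of `pv e` in the direction `w` is `(rv e)' (z) * w none`, and
the coordinates of `w` at the nodes are `u_ν' (z) * w none`, `v_ν' (z) * w none` (structural
induction on `e`; for a power: first the equation `eA` gives `exp u * w_u = dir (pv s) = s' w_none`,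
so `w_u = (log s)' w_none`, then `eB` gives `w_v = dir (pv t) u + t w_u = (t log s)' w_none`, and
`dir (X (inr (inr ..))) = exp v * w_v`).
-/

namespace Pool.Agent.KV

open MvPolynomial

variable {N : Type} [Fintype N]

/-- The derivative in the direction `w`. -/
noncomputable def dir (x w : Option (N ⊕ N) → ℝ) (P : PR N) : ℝ :=
  ∑ j, ev some (dd some j P) x * w j

private theorem ExD_dir_eq (x w : Option (N ⊕ N) → ℝ) (P : PR N) {L : (Option (N ⊕ N) → ℝ) →L[ℝ] ℝ}
    (h : HasFDerivAt (fun y => ev some P y) L x) : dir x w P = L w := by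
  have h1 := (ev_hasStrictFDerivAt some P x).hasFDerivAt
  rw [← h1.unique h]
  unfold dir
  rw [ContinuousLinearMap.sum_apply]
  refine Finset.sum_congr rfl fun j _ => ?_
  rfl

private theorem ExD_has (x : Option (N ⊕ N) → ℝ) (P : PR N) :
    ∃ L : (Option (N ⊕ N) → ℝ) →L[ℝ] ℝ, HasFDerivAt (fun y => ev some P y) L x :=
  ⟨_, (ev_hasStrictFDerivAt some P x).hasFDerivAt⟩

theorem dir_add (x w : Option (N ⊕ N) → ℝ) (P Q : PR N) :
    dir x w (P + Q) = dir x w P + dir x w Q := by
  obtain ⟨L, hL⟩ := ExD_has x P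
  obtain ⟨M, hM⟩ := ExD_has x Q
  have e : (fun y => ev some (P + Q) y) = fun y => ev some P y + ev some Q y := by
    funext y
    exact map_add _ _ _
  have h : HasFDerivAt (fun y => ev some (P + Q) y) (L + M) x := by
    rw [e]
    exact hL.add hM
  rw [ExD_dir_eq x w (P + Q) h, ExD_dir_eq x w P hL, ExD_dir_eq x w Q hM]
  rfl

theorem dir_sub (x w : Option (N ⊕ N) → ℝ) (P Q : PR N) :
    dir x w (P - Q) = dir x w P - dir x w Q := by
  have h := dir_add x w (P - Q) Q
  rw [sub_add_cancel] at h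
  rw [h, add_sub_cancel_right]

theorem dir_mul (x w : Option (N ⊕ N) → ℝ) (P Q : PR N) :
    dir x w (P * Q) = dir x w P * ev some Q x + ev some P x * dir x w Q := by
  obtain ⟨L, hL⟩ := ExD_has x P
  obtain ⟨M, hM⟩ := ExD_has x Q
  have e : (fun y => ev some (P * Q) y) = fun y => ev some P y * ev some Q y := by
    funext y
    exact map_mul _ _ _
  have h : HasFDerivAt (fun y => ev some (P * Q) y) (ev some P x • M + ev some Q x • L) x := by
    rw [e]
    exact hL.mul hM
  rw [ExD_dir_eq x w (P * Q) h, ExD_dir_eq x w P hL, ExD_dir_eq x w Q hM]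
  show ev some P x * M w + ev some Q x * L w = L w * ev some Q x + ev some P x * M w
  ring

theorem dir_C (x w : Option (N ⊕ N) → ℝ) (a : ℝ) : dir x w (C a : PR N) = 0 := by
  have e : (fun y => ev some (C a : PR N) y) = fun _ => a := by
    funext y
    exact eval_C _
  have h : HasFDerivAt (fun y => ev some (C a : PR N) y)
      (0 : (Option (N ⊕ N) → ℝ) →L[ℝ] ℝ) x := by
    rw [e]
    exact hasFDerivAt_const a x
  rw [ExD_dir_eq x w _ h]
  rfl

theorem dir_X_inl (x w : Option (N ⊕ N) → ℝ) (i : Option (N ⊕ N)) :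
    dir x w (X (Sum.inl i) : PR N) = w i := by
  have e : (fun y => ev some (X (Sum.inl i) : PR N) y) = fun y => y i := by
    funext y
    exact eval_X _
  have h : HasFDerivAt (fun y => ev some (X (Sum.inl i) : PR N) y)
      (ContinuousLinearMap.proj i : (Option (N ⊕ N) → ℝ) →L[ℝ] ℝ) x := by
    rw [e]
    exact (ContinuousLinearMap.proj i : (Option (N ⊕ N) → ℝ) →L[ℝ] ℝ).hasFDerivAt
  rw [ExD_dir_eq x w _ h]
  rfl

theorem dir_X_inr (x w : Option (N ⊕ N) → ℝ) (j : N ⊕ N) :
    dir x w (X (Sum.inr j) : PR N) = Real.exp (x (some j)) * w (some j) := by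
  have e : (fun y => ev some (X (Sum.inr j) : PR N) y) = fun y => Real.exp (y (some j)) := by
    funext y
    exact eval_X _
  have h : HasFDerivAt (fun y => ev some (X (Sum.inr j) : PR N) y)
      (Real.exp (x (some j)) •
        (ContinuousLinearMap.proj (some j) : (Option (N ⊕ N) → ℝ) →L[ℝ] ℝ)) x := by
    rw [e]
    exact (ContinuousLinearMap.proj (some j) :
      (Option (N ⊕ N) → ℝ) →L[ℝ] ℝ).hasFDerivAt.exp
  rw [ExD_dir_eq x w _ h]
  rfl

private theorem ExD_diff {e : Ex} (he : e.Pos) {z : ℝ} (hz : 0 < z) :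
    DifferentiableAt ℝ (fun z => e.rv z) z :=
  (Ex.analytic he z hz).differentiableAt

theorem kernel {e : Ex} (he : e.Pos) {m : e.Nd → N} {x w : Option (N ⊕ N) → ℝ} {z : ℝ}
    (hz : 0 < z) (h : e.At m x z) (hA : ∀ ν, dir x w (e.eA m ν) = 0)
    (hB : ∀ ν, dir x w (e.eB m ν) = 0) :
    dir x w (e.pv m) = deriv (fun z => e.rv z) z * w none ∧
      ∀ ν, w (some (Sum.inl (m ν))) = deriv (e.uF ν) z * w none ∧
        w (some (Sum.inr (m ν))) = deriv (e.vF ν) z * w none := by
  induction e with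
  | cst a =>
    refine ⟨?_, fun ν => nomatch ν⟩
    show dir x w (C a) = deriv (fun _ => a) z * w none
    rw [dir_C, deriv_const, zero_mul]
  | y =>
    refine ⟨?_, fun ν => nomatch ν⟩
    show dir x w (X (Sum.inl none)) = deriv (fun z => z) z * w none
    rw [dir_X_inl, deriv_id'', one_mul]
  | add s t hs ht =>
    have h1 := hs he.1 (m := fun ν => m (Sum.inl ν)) ⟨h.1, fun ν => h.2 (Sum.inl ν)⟩
      (fun ν => hA (Sum.inl ν)) (fun ν => hB (Sum.inl ν))
    have h2 := ht he.2 (m := fun ν => m (Sum.inr ν)) ⟨h.1, fun ν => h.2 (Sum.inr ν)⟩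
      (fun ν => hA (Sum.inr ν)) (fun ν => hB (Sum.inr ν))
    refine ⟨?_, ?_⟩
    · show dir x w (s.pv (fun ν => m (Sum.inl ν)) + t.pv (fun ν => m (Sum.inr ν))) =
        deriv (fun z => s.rv z + t.rv z) z * w none
      rw [dir_add, h1.1, h2.1, deriv_fun_add (ExD_diff he.1 hz) (ExD_diff he.2 hz), add_mul]
    · rintro (ν | ν)
      · exact h1.2 ν
      · exact h2.2 ν
  | mul s t hs ht =>
    have h1 := hs he.1 (m := fun ν => m (Sum.inl ν)) ⟨h.1, fun ν => h.2 (Sum.inl ν)⟩
      (fun ν => hA (Sum.inl ν)) (fun ν => hB (Sum.inl ν))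
    have h2 := ht he.2 (m := fun ν => m (Sum.inr ν)) ⟨h.1, fun ν => h.2 (Sum.inr ν)⟩
      (fun ν => hA (Sum.inr ν)) (fun ν => hB (Sum.inr ν))
    have e1 : ev some (s.pv (fun ν => m (Sum.inl ν))) x = s.rv z :=
      Ex.ev_pv ⟨h.1, fun ν => h.2 (Sum.inl ν)⟩
    have e2 : ev some (t.pv (fun ν => m (Sum.inr ν))) x = t.rv z :=
      Ex.ev_pv ⟨h.1, fun ν => h.2 (Sum.inr ν)⟩
    refine ⟨?_, ?_⟩
    · show dir x w (s.pv (fun ν => m (Sum.inl ν)) * t.pv (fun ν => m (Sum.inr ν))) =
        deriv (fun z => s.rv z * t.rv z) z * w none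
      rw [dir_mul, h1.1, h2.1, e1, e2, deriv_fun_mul (ExD_diff he.1 hz) (ExD_diff he.2 hz)]
      ring
    · rintro (ν | ν)
      · exact h1.2 ν
      · exact h2.2 ν
  | pow s t hs ht =>
    have h1 := hs he.1 (m := fun ν => m (some (Sum.inl ν)))
      ⟨h.1, fun ν => h.2 (some (Sum.inl ν))⟩
      (fun ν => hA (some (Sum.inl ν))) (fun ν => hB (some (Sum.inl ν)))
    have h2 := ht he.2 (m := fun ν => m (some (Sum.inr ν)))
      ⟨h.1, fun ν => h.2 (some (Sum.inr ν))⟩
      (fun ν => hA (some (Sum.inr ν))) (fun ν => hB (some (Sum.inr ν)))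
    have e1 : ev some (s.pv (fun ν => m (some (Sum.inl ν)))) x = s.rv z :=
      Ex.ev_pv ⟨h.1, fun ν => h.2 (some (Sum.inl ν))⟩
    have e2 : ev some (t.pv (fun ν => m (some (Sum.inr ν)))) x = t.rv z :=
      Ex.ev_pv ⟨h.1, fun ν => h.2 (some (Sum.inr ν))⟩
    have hsp : 0 < s.rv z := Ex.rv_pos he.1 hz
    have hu : x (some (Sum.inl (m none))) = Real.log (s.rv z) := (h.2 none).1
    have hv : x (some (Sum.inr (m none))) = t.rv z * Real.log (s.rv z) := (h.2 none).2
    have hA0 : dir x w (X (Sum.inr (Sum.inl (m none))) -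
        s.pv (fun ν => m (some (Sum.inl ν)))) = 0 := hA none
    have hB0 : dir x w (X (Sum.inl (some (Sum.inr (m none)))) -
        t.pv (fun ν => m (some (Sum.inr ν))) * X (Sum.inl (some (Sum.inl (m none))))) = 0 :=
      hB none
    rw [dir_sub, dir_X_inr, hu, Real.exp_log hsp, h1.1] at hA0
    have hX : ev some (X (Sum.inl (some (Sum.inl (m none)))) : PR N) x =
        Real.log (s.rv z) := by
      rw [← hu]
      exact eval_X _
    rw [dir_sub, dir_X_inl, dir_mul, dir_X_inl, hX, h2.1, e2] at hB0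
    have ds := ExD_diff he.1 hz
    have dt := ExD_diff he.2 hz
    have dl : DifferentiableAt ℝ (fun z => Real.log (s.rv z)) z := ds.log hsp.ne'
    have dul : deriv (fun z => Real.log (s.rv z)) z = deriv (fun z => s.rv z) z / s.rv z :=
      deriv.log ds hsp.ne'
    have hwu : w (some (Sum.inl (m none))) =
        deriv (fun z => Real.log (s.rv z)) z * w none := by
      rw [dul, div_mul_eq_mul_div, eq_div_iff hsp.ne']
      linarith
    have dvl : deriv (fun z => t.rv z * Real.log (s.rv z)) z =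
        deriv (fun z => t.rv z) z * Real.log (s.rv z) +
          t.rv z * deriv (fun z => Real.log (s.rv z)) z := deriv_fun_mul dt dl
    have hwv : w (some (Sum.inr (m none))) =
        deriv (fun z => t.rv z * Real.log (s.rv z)) z * w none := by
      rw [dvl]
      rw [hwu] at hB0
      linarith
    refine ⟨?_, ?_⟩
    · show dir x w (X (Sum.inr (Sum.inr (m none)))) =
        deriv (fun z => Real.exp (t.rv z * Real.log (s.rv z))) z * w none
      rw [dir_X_inr, hv, hwv]
      have hd : HasDerivAt (fun z => Real.exp (t.rv z * Real.log (s.rv z)))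
          (Real.exp (t.rv z * Real.log (s.rv z)) *
            deriv (fun z => t.rv z * Real.log (s.rv z)) z) z :=
        (dt.mul dl).hasDerivAt.exp
      rw [hd.deriv]
      ring
    · rintro (_ | ν | ν)
      · exact ⟨hwu, hwv⟩
      · exact h1.2 ν
      · exact h2.2 ν

end Pool.Agent.KV
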