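import Pool.Agent.H.MP_b2d7dd_lc.KV.Step
import Pool.Agent.H.MP_b2d7dd_lc.KV.Bez

/-!
# Module Iter: the bound of Khovanskii

`Kh.congr`: rename the variables (`Equiv.sumCongr`). `kh`: induction on the number of
exponentials, for all types; a type with `k + 1` elements is equivalent to `Option (Fin k)`.
-/

namespace Pool.Agent.KV

open MvPolynomial

/-- The recursive bound. -/
def KB : ℕ → ℕ → ℕ → ℕ
  | n, 0, d => d ^ n
  | n, k + 1, d => KB (n + 1) k (max d 2) + 2 * KB (n + 2) k ((n + 1) * max d 2)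

private theorem Iter_pt {ι κ ι' κ' : Type} (e : ι ≃ ι') (f : κ ≃ κ') (c' : κ' → ι')
    (x : ι' → ℝ) : pt (fun k => e.symm (c' (f k))) (x ∘ e) ∘ Sum.map e.symm f.symm = pt c' x := by
  funext s
  rcases s with i | k
  · simp [pt]
  · simp [pt]

private theorem Iter_ev {ι κ ι' κ' : Type} (e : ι ≃ ι') (f : κ ≃ κ') (c' : κ' → ι')
    (x : ι' → ℝ) (p : MvPolynomial (ι' ⊕ κ') ℝ) :
    ev (fun k => e.symm (c' (f k))) (rename (Sum.map e.symm f.symm) p) (x ∘ e) = ev c' p x := by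
  unfold ev
  rw [eval_rename, Iter_pt]

private theorem Iter_dd {ι κ ι' κ' : Type} [Fintype κ] [Fintype κ'] (e : ι ≃ ι') (f : κ ≃ κ')
    (c' : κ' → ι') (j : ι) (p : MvPolynomial (ι' ⊕ κ') ℝ) :
    dd (fun k => e.symm (c' (f k))) j (rename (Sum.map e.symm f.symm) p) =
      rename (Sum.map e.symm f.symm) (dd c' (e j) p) := by
  classical
  have hg : Function.Injective (Sum.map e.symm f.symm) :=
    Sum.map_injective.2 ⟨e.symm.injective, f.symm.injective⟩
  unfold dd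
  rw [map_add, map_sum]
  congr 1
  · rw [← pderiv_rename hg]
    simp
  · rw [← Equiv.sum_comp f.symm]
    refine Finset.sum_congr rfl fun k _ => ?_
    simp only [Equiv.apply_symm_apply]
    by_cases hk : c' k = e j
    · rw [if_pos (by rw [hk, Equiv.symm_apply_apply]), if_pos hk, map_mul, rename_X,
        ← pderiv_rename hg]
      simp
    · rw [if_neg (fun h => hk (by rw [← h, Equiv.apply_symm_apply])), if_neg hk, map_zero]

private theorem Iter_jac {ι κ ι' κ' : Type} [Fintype ι] [Fintype κ] [Fintype ι'] [Fintype κ']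
    (e : ι ≃ ι') (f : κ ≃ κ') (c' : κ' → ι') (P' : ι' → MvPolynomial (ι' ⊕ κ') ℝ) :
    jac (fun k => e.symm (c' (f k))) (fun i => rename (Sum.map e.symm f.symm) (P' (e i))) =
      rename (Sum.map e.symm f.symm) (jac c' P') := by
  classical
  unfold jac
  have h1 : (Matrix.of fun i j => dd (fun k => e.symm (c' (f k))) j
      (rename (Sum.map e.symm f.symm) (P' (e i)))) =
      (((rename (Sum.map e.symm f.symm) : MvPolynomial (ι' ⊕ κ') ℝ →ₐ[ℝ]
        MvPolynomial (ι ⊕ κ) ℝ) : MvPolynomial (ι' ⊕ κ') ℝ →+* MvPolynomial (ι ⊕ κ) ℝ).mapMatrix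
        (Matrix.of fun i j => dd c' j (P' i))).submatrix e e := by
    ext1 i j
    simp only [Matrix.of_apply, Matrix.submatrix_apply, RingHom.mapMatrix_apply, Matrix.map_apply]
    exact Iter_dd e f c' j (P' (e i))
  rw [h1, Matrix.det_submatrix_equiv_self, ← RingHom.map_det]
  rfl

theorem Kh.congr {ι κ ι' κ' : Type} [Fintype ι] [Fintype κ] [Fintype ι'] [Fintype κ']
    (e : ι ≃ ι') (f : κ ≃ κ') {d N : ℕ} (h : Kh ι κ d N) : Kh ι' κ' d N := by
  classical
  intro c' P' hP' S' hS'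
  have hinj : Function.Injective fun x : ι' → ℝ => x ∘ e := by
    intro x y hxy
    funext i
    have h1 := congrFun hxy (e.symm i)
    simpa using h1
  rw [← Finset.card_image_of_injective S' hinj]
  refine h (fun k => e.symm (c' (f k))) (fun i => rename (Sum.map e.symm f.symm) (P' (e i)))
    (fun i => (totalDegree_rename_le _ _).trans (hP' _)) _ fun y hy => ?_
  obtain ⟨x, hx, rfl⟩ := Finset.mem_image.1 hy
  obtain ⟨h1, h2⟩ := hS' x hx
  refine ⟨fun i => ?_, ?_⟩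
  · rw [Iter_ev]
    exact h1 (e i)
  · rw [Iter_jac, Iter_ev]
    exact h2

theorem Kh.mono {ι κ : Type} [Fintype ι] [Fintype κ] {d d' N N' : ℕ} (h : Kh ι κ d N)
    (hd : d' ≤ d) (hN : N ≤ N') : Kh ι κ d' N' := by
  intro c P hP S hS
  exact (h c P (fun i => (hP i).trans hd) S hS).trans hN

theorem kh (k : ℕ) : ∀ (ι κ : Type) [Fintype ι] [Fintype κ] (d : ℕ), 1 ≤ d →
    Fintype.card κ = k → Kh ι κ d (KB (Fintype.card ι) k d) := by
  induction k with
  | zero =>
    intro ι κ _ _ d hd hκ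
    haveI : IsEmpty κ := Fintype.card_eq_zero_iff.1 hκ
    exact kh_zero hd
  | succ k ih =>
    intro ι κ _ _ d _ hκ
    have hcard : Fintype.card (Option (Fin k)) = Fintype.card κ := by
      rw [Fintype.card_option, Fintype.card_fin, hκ]
    have h2 : 1 ≤ max d 2 := (by omega : 1 ≤ 2).trans (le_max_right d 2)
    have h0 := ih (Option ι) (Fin k) (max d 2) h2 (Fintype.card_fin k)
    have h1 := ih (Option (Option ι)) (Fin k) ((Fintype.card ι + 1) * max d 2)
      (Nat.mul_pos (Nat.succ_pos _) h2) (Fintype.card_fin k)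
    rw [Fintype.card_option] at h0
    rw [Fintype.card_option, Fintype.card_option] at h1
    exact Kh.congr (Equiv.refl ι) (Fintype.equivOfCardEq hcard) (kh_step h0 h1)

theorem KB_le (k : ℕ) : ∀ n d : ℕ, 2 ≤ d → 1 ≤ n →
    KB n k d ≤ 3 ^ k * ((n + 2 * k) ^ k * d) ^ (n + 2 * k) := by
  induction k with
  | zero =>
    intro n d _ _
    simp [KB]
  | succ k ih =>
    intro n d hd hn
    have hmax : max d 2 = d := max_eq_left hd
    have e1 := ih (n + 1) d hd (by omega)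
    have e2 := ih (n + 2) ((n + 1) * d) (by nlinarith) (by omega)
    obtain ⟨M, hM⟩ : ∃ M, M = n + 2 * (k + 1) := ⟨_, rfl⟩
    have hA : 1 ≤ M ^ (k + 1) * d := Nat.mul_pos (Nat.pow_pos (by omega)) (by omega)
    have b1 : ((n + 1 + 2 * k) ^ k * d) ^ (n + 1 + 2 * k) ≤ (M ^ (k + 1) * d) ^ M := by
      have g1 : (n + 1 + 2 * k) ^ k ≤ M ^ (k + 1) :=
        (Nat.pow_le_pow_left (by omega) k).trans (Nat.pow_le_pow_right (by omega) (by omega))
      exact (Nat.pow_le_pow_left (Nat.mul_le_mul_right d g1) _).trans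
        (Nat.pow_le_pow_right hA (by omega))
    have b2 : ((n + 2 + 2 * k) ^ k * ((n + 1) * d)) ^ (n + 2 + 2 * k) ≤
        (M ^ (k + 1) * d) ^ M := by
      have g1 : (n + 2 + 2 * k) ^ k * ((n + 1) * d) ≤ M ^ (k + 1) * d := by
        have g2 : n + 2 + 2 * k = M := by omega
        rw [g2, pow_succ, ← mul_assoc]
        exact Nat.mul_le_mul_right d (Nat.mul_le_mul_left _ (by omega))
      exact (Nat.pow_le_pow_left g1 _).trans (Nat.pow_le_pow_right hA (by omega))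
    rw [← hM]
    show KB (n + 1) k (max d 2) + 2 * KB (n + 2) k ((n + 1) * max d 2) ≤ _
    rw [hmax]
    calc KB (n + 1) k d + 2 * KB (n + 2) k ((n + 1) * d)
        ≤ 3 ^ k * (M ^ (k + 1) * d) ^ M + 2 * (3 ^ k * (M ^ (k + 1) * d) ^ M) :=
          Nat.add_le_add (e1.trans (Nat.mul_le_mul_left _ b1))
            (Nat.mul_le_mul_left _ (e2.trans (Nat.mul_le_mul_left _ b2)))
      _ = 3 ^ (k + 1) * (M ^ (k + 1) * d) ^ M := by ring

/-- The bound for expressions of size `m`. -/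
def Zk (m : ℕ) : ℕ := 2 ^ (50 * (m + 1) ^ 3)

/-- `log2 (6 m + 1) ≤ m + 3`, `log2 (m + 2) ≤ m + 2`; if there are fewer variables or exponentials
use the monotonicity of the bound of `KB_le`. -/
theorem KB_le_Zk {m n k d : ℕ} (hn1 : 1 ≤ n) (hn : n ≤ 2 * m + 1) (hk : k ≤ 2 * m)
    (hd2 : 2 ≤ d) (hd : d ≤ m + 2) : KB n k d ≤ Zk m := by
  refine (KB_le k n d hd2 hn1).trans ?_
  have h1 : 3 ^ k ≤ 2 ^ (4 * m) := by
    calc 3 ^ k ≤ 4 ^ k := Nat.pow_le_pow_left (by omega) k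
      _ ≤ 4 ^ (2 * m) := Nat.pow_le_pow_right (by omega) hk
      _ = 2 ^ (4 * m) := by
          rw [show (4 : ℕ) = 2 ^ 2 by norm_num, ← pow_mul]
          congr 1
          ring
  have h2 : n + 2 * k ≤ 6 * m + 1 := by omega
  have hm := Nat.lt_two_pow_self (n := m)
  have h3 : 6 * m + 1 ≤ 2 ^ (m + 3) := by
    rw [pow_add]
    omega
  have h4 : d ≤ 2 ^ (m + 1) := by
    rw [pow_add]
    omega
  have h5 : (n + 2 * k) ^ k ≤ 2 ^ ((m + 3) * (2 * m)) := by
    calc (n + 2 * k) ^ k ≤ (2 ^ (m + 3)) ^ k := Nat.pow_le_pow_left (h2.trans h3) k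
      _ ≤ (2 ^ (m + 3)) ^ (2 * m) := Nat.pow_le_pow_right (Nat.two_pow_pos _) hk
      _ = 2 ^ ((m + 3) * (2 * m)) := by rw [← pow_mul]
  have h6 : ((n + 2 * k) ^ k * d) ^ (n + 2 * k) ≤
      2 ^ (((m + 3) * (2 * m) + (m + 1)) * (6 * m + 1)) := by
    have h7 : (n + 2 * k) ^ k * d ≤ 2 ^ ((m + 3) * (2 * m) + (m + 1)) := by
      rw [pow_add]
      exact Nat.mul_le_mul h5 h4
    calc ((n + 2 * k) ^ k * d) ^ (n + 2 * k)
        ≤ (2 ^ ((m + 3) * (2 * m) + (m + 1))) ^ (n + 2 * k) := Nat.pow_le_pow_left h7 _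
      _ ≤ (2 ^ ((m + 3) * (2 * m) + (m + 1))) ^ (6 * m + 1) :=
          Nat.pow_le_pow_right (Nat.two_pow_pos _) h2
      _ = _ := by rw [← pow_mul]
  unfold Zk
  calc 3 ^ k * ((n + 2 * k) ^ k * d) ^ (n + 2 * k)
      ≤ 2 ^ (4 * m) * 2 ^ (((m + 3) * (2 * m) + (m + 1)) * (6 * m + 1)) := Nat.mul_le_mul h1 h6
    _ = 2 ^ (4 * m + ((m + 3) * (2 * m) + (m + 1)) * (6 * m + 1)) := by rw [← pow_add]
    _ ≤ 2 ^ (50 * (m + 1) ^ 3) := by
        refine Nat.pow_le_pow_right (by omega) ?_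
        have h8 : 50 * (m + 1) ^ 3 = 4 * m + ((m + 3) * (2 * m) + (m + 1)) * (6 * m + 1) +
            (38 * m ^ 3 + 106 * m ^ 2 + 133 * m + 49) := by ring
        omega

end Pool.Agent.KV
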