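import Pool.Agent.H.MP_b2d7dd_lc.KV.ExD
import Pool.Agent.H.MP_b2d7dd_lc.KV.Iter

/-!
# Module ExZ: zeros of the difference of two expressions

`simple_count`: `N = e1.Nd ⊕ e2.Nd`, the system with index type `Option (N ⊕ N)`: `none` ↦
`pv e1 - pv e2 - C ε`, `some (inl ν)` ↦ `eA`, `some (inr ν)` ↦ `eB`. The point of `z` is
`none ↦ z`, `some (inl ν) ↦ u_ν z`, `some (inr ν) ↦ v_ν z` (injective in `z`); it is a zero; if
the Jacobian vanished, `exists_kernel` and `kernel` give `F' (z) * w none = 0`, so `w none = 0` and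
then `w = 0`. `kh` and `KB_le_Zk` (`n = 1 + 2 #N`, `k = 2 #N`, degree at most `m + 2`).

`ex_zeros`: let `F = rv e1 - rv e2`, analytic on `(0, ∞)`, not identically zero. The zeros are
isolated. If `F' = 0` everywhere on `(0, ∞)`, then `F` is constant, without zeros. Otherwise `F'` has
isolated zeros, so the set of the critical values is countable (or: it has measure zero,
`MeasureTheory.addHaar_image_eq_zero_of_det_fderivWithin_eq_zero`). For every `z ∈ S` choose a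
small `δ` (the same for all, the intervals `[z - δ, z + δ]` disjoint, in `(0, ∞)`, without other
zeros of `F`); let `ε > 0` be less than all `|F (z ± δ)|` with `ε`, `-ε` not critical values. By the
intermediate value theorem `F` takes the value `ε` or `-ε` in `(z - δ, z)` and in `(z, z + δ)`.
So `2 #S ≤ 2 Zk`.
-/

namespace Pool.Agent.KV

open MvPolynomial Filter Topology

/-- The system. -/
private noncomputable def ExZ_P (e1 e2 : Ex) (ε : ℝ) :
    Option ((e1.Nd ⊕ e2.Nd) ⊕ (e1.Nd ⊕ e2.Nd)) → PR (e1.Nd ⊕ e2.Nd)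
  | none => e1.pv Sum.inl - e2.pv Sum.inr - C ε
  | some (Sum.inl (Sum.inl ν)) => e1.eA Sum.inl ν
  | some (Sum.inl (Sum.inr ν)) => e2.eA Sum.inr ν
  | some (Sum.inr (Sum.inl ν)) => e1.eB Sum.inl ν
  | some (Sum.inr (Sum.inr ν)) => e2.eB Sum.inr ν

/-- The point. -/
private noncomputable def ExZ_X (e1 e2 : Ex) (z : ℝ) :
    Option ((e1.Nd ⊕ e2.Nd) ⊕ (e1.Nd ⊕ e2.Nd)) → ℝ
  | none => z
  | some (Sum.inl (Sum.inl ν)) => e1.uF ν z
  | some (Sum.inl (Sum.inr ν)) => e2.uF ν z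
  | some (Sum.inr (Sum.inl ν)) => e1.vF ν z
  | some (Sum.inr (Sum.inr ν)) => e2.vF ν z

private theorem ExZ_at1 (e1 e2 : Ex) (z : ℝ) : e1.At Sum.inl (ExZ_X e1 e2 z) z :=
  ⟨rfl, fun _ => ⟨rfl, rfl⟩⟩

private theorem ExZ_at2 (e1 e2 : Ex) (z : ℝ) : e2.At Sum.inr (ExZ_X e1 e2 z) z :=
  ⟨rfl, fun _ => ⟨rfl, rfl⟩⟩

private theorem ExZ_deg (e1 e2 : Ex) (ε : ℝ) (i : Option ((e1.Nd ⊕ e2.Nd) ⊕ (e1.Nd ⊕ e2.Nd))) :
    (ExZ_P e1 e2 ε i).totalDegree ≤ e1.sz + e2.sz + 2 := by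
  match i with
  | none =>
    refine (totalDegree_sub_C_le _ _).trans ((totalDegree_sub _ _).trans ?_)
    have h1 := e1.totalDegree_pv (Sum.inl : e1.Nd → e1.Nd ⊕ e2.Nd)
    have h2 := e2.totalDegree_pv (Sum.inr : e2.Nd → e1.Nd ⊕ e2.Nd)
    refine max_le (by omega) (by omega)
  | some (Sum.inl (Sum.inl ν)) =>
    have := e1.totalDegree_eA (Sum.inl : e1.Nd → e1.Nd ⊕ e2.Nd) ν
    simp only [ExZ_P]; omega
  | some (Sum.inl (Sum.inr ν)) =>
    have := e2.totalDegree_eA (Sum.inr : e2.Nd → e1.Nd ⊕ e2.Nd) ν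
    simp only [ExZ_P]; omega
  | some (Sum.inr (Sum.inl ν)) =>
    have := e1.totalDegree_eB (Sum.inl : e1.Nd → e1.Nd ⊕ e2.Nd) ν
    simp only [ExZ_P]; omega
  | some (Sum.inr (Sum.inr ν)) =>
    have := e2.totalDegree_eB (Sum.inr : e2.Nd → e1.Nd ⊕ e2.Nd) ν
    simp only [ExZ_P]; omega

private theorem ExZ_ns {e1 e2 : Ex} (h1 : e1.Pos) (h2 : e2.Pos) {ε z : ℝ} (hz : 0 < z)
    (he : e1.rv z - e2.rv z = ε)
    (hd : deriv (fun z => e1.rv z) z - deriv (fun z => e2.rv z) z ≠ 0) :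
    NonSing some (ExZ_P e1 e2 ε) (ExZ_X e1 e2 z) := by
  have a1 := ExZ_at1 e1 e2 z
  have a2 := ExZ_at2 e1 e2 z
  constructor
  · intro i
    match i with
    | none =>
      have b1 := Ex.ev_pv a1
      have b2 := Ex.ev_pv a2
      unfold ev at b1 b2 ⊢
      simp only [ExZ_P, map_sub, eval_C]
      rw [b1, b2, he, sub_self]
    | some (Sum.inl (Sum.inl ν)) => exact Ex.ev_eA h1 hz a1 ν
    | some (Sum.inl (Sum.inr ν)) => exact Ex.ev_eA h2 hz a2 ν
    | some (Sum.inr (Sum.inl ν)) => exact Ex.ev_eB a1 ν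
    | some (Sum.inr (Sum.inr ν)) => exact Ex.ev_eB a2 ν
  · intro hj
    obtain ⟨w, hw0, hw⟩ := exists_kernel _ _ _ hj
    have hw' : ∀ i, dir (ExZ_X e1 e2 z) w (ExZ_P e1 e2 ε i) = 0 := hw
    obtain ⟨k1, k2⟩ := kernel h1 hz a1 (w := w) (fun ν => hw' (some (Sum.inl (Sum.inl ν))))
      (fun ν => hw' (some (Sum.inr (Sum.inl ν))))
    obtain ⟨l1, l2⟩ := kernel h2 hz a2 (w := w) (fun ν => hw' (some (Sum.inl (Sum.inr ν))))
      (fun ν => hw' (some (Sum.inr (Sum.inr ν))))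
    have h0 := hw' none
    simp only [ExZ_P] at h0
    rw [dir_sub, dir_sub, dir_C, k1, l1, sub_zero, ← sub_mul] at h0
    have hn : w none = 0 := (mul_eq_zero.1 h0).resolve_left hd
    apply hw0
    funext i
    match i with
    | none => exact hn
    | some (Sum.inl (Sum.inl ν)) =>
      rw [(k2 ν).1, hn, mul_zero, Pi.zero_apply]
    | some (Sum.inl (Sum.inr ν)) =>
      rw [(l2 ν).1, hn, mul_zero, Pi.zero_apply]
    | some (Sum.inr (Sum.inl ν)) =>
      rw [(k2 ν).2, hn, mul_zero, Pi.zero_apply]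
    | some (Sum.inr (Sum.inr ν)) =>
      rw [(l2 ν).2, hn, mul_zero, Pi.zero_apply]

theorem simple_count {e1 e2 : Ex} (h1 : e1.Pos) (h2 : e2.Pos) (ε : ℝ) (S : Finset ℝ)
    (hS : ∀ z ∈ S, 0 < z ∧ e1.rv z - e2.rv z = ε ∧
      deriv (fun z => e1.rv z) z - deriv (fun z => e2.rv z) z ≠ 0) :
    S.card ≤ Zk (e1.sz + e2.sz) := by
  classical
  have hinj : Function.Injective (ExZ_X e1 e2) := fun a b hab => congrFun hab none
  have hc1 := e1.card_Nd_le
  have hc2 := e2.card_Nd_le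
  have hk := kh (Fintype.card ((e1.Nd ⊕ e2.Nd) ⊕ (e1.Nd ⊕ e2.Nd)))
    (Option ((e1.Nd ⊕ e2.Nd) ⊕ (e1.Nd ⊕ e2.Nd))) ((e1.Nd ⊕ e2.Nd) ⊕ (e1.Nd ⊕ e2.Nd))
    (e1.sz + e2.sz + 2) (by omega) rfl
  have h3 := hk some (ExZ_P e1 e2 ε) (ExZ_deg e1 e2 ε) (S.image (ExZ_X e1 e2)) (fun x hx => by
    obtain ⟨z, hz, rfl⟩ := Finset.mem_image.1 hx
    obtain ⟨a, b, c⟩ := hS z hz
    exact ExZ_ns h1 h2 a b c)
  rw [Finset.card_image_of_injective _ hinj] at h3
  refine h3.trans (KB_le_Zk ?_ ?_ ?_ (by omega) (by omega))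
  · simp only [Fintype.card_option]; omega
  · simp only [Fintype.card_option, Fintype.card_sum]; omega
  · simp only [Fintype.card_sum]; omega

/-- A value between `0` and `F b`. -/
private theorem ExZ_ivt {F : ℝ → ℝ} {a b ε : ℝ} (hF : ContinuousOn F (Set.uIcc a b))
    (ha : F a = 0) (hε : 0 < ε) (hb : ε < |F b|) :
    ∃ c ∈ Set.uIcc a b, c ≠ a ∧ c ≠ b ∧ (F c = ε ∨ F c = -ε) := by
  have h1 := intermediate_value_uIcc hF
  rcases le_or_gt 0 (F b) with h | h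
  · rw [abs_of_nonneg h] at hb
    have h2 : ε ∈ Set.uIcc (F a) (F b) := by
      rw [ha, Set.uIcc_of_le h]
      exact ⟨hε.le, hb.le⟩
    obtain ⟨c, hc, hce⟩ := h1 h2
    refine ⟨c, hc, ?_, ?_, Or.inl hce⟩
    · rintro rfl
      linarith
    · rintro rfl
      linarith
  · rw [abs_of_neg h] at hb
    have h2 : -ε ∈ Set.uIcc (F a) (F b) := by
      rw [ha, Set.uIcc_of_ge h.le]
      exact ⟨by linarith, by linarith⟩
    obtain ⟨c, hc, hce⟩ := h1 h2
    refine ⟨c, hc, ?_, ?_, Or.inr hce⟩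
    · rintro rfl
      linarith
    · rintro rfl
      linarith

/-- Critical values form a null set. -/
private theorem ExZ_sard {F F' : ℝ → ℝ} (s : Set ℝ) (h : ∀ x ∈ s, HasDerivAt F (F' x) x) :
    MeasureTheory.volume (F '' {x ∈ s | F' x = 0}) = 0 := by
  refine MeasureTheory.addHaar_image_eq_zero_of_det_fderivWithin_eq_zero MeasureTheory.volume
    (f' := fun x => ContinuousLinearMap.toSpanSingleton ℝ (F' x)) ?_ ?_
  · intro x hx
    exact (h x hx.1).hasFDerivAt.hasFDerivWithinAt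
  · intro x hx
    rw [hx.2]
    have : ContinuousLinearMap.toSpanSingleton ℝ (0 : ℝ) = (0 : ℝ →L[ℝ] ℝ) := by
      ext
      simp
    rw [this]
    simp [ContinuousLinearMap.det]

private theorem ExZ_eps {A : Set ℝ} (hA : MeasureTheory.volume A = 0) {η : ℝ} (hη : 0 < η) :
    ∃ ε : ℝ, 0 < ε ∧ ε < η ∧ ε ∉ A ∧ -ε ∉ A := by
  by_contra hc
  push Not at hc
  have h1 : Set.Ioo 0 η ⊆ A ∪ Neg.neg ⁻¹' A := by
    intro x hx
    by_cases hxA : x ∈ A
    · exact Or.inl hxA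
    · exact Or.inr (hc x hx.1 hx.2 hxA)
  have h2 : MeasureTheory.volume (A ∪ Neg.neg ⁻¹' A) = 0 := by
    rw [MeasureTheory.measure_union_null_iff]
    refine ⟨hA, ?_⟩
    rw [MeasureTheory.Measure.measure_preimage_neg]
    exact hA
  have h3 := MeasureTheory.measure_mono_null h1 h2
  rw [Real.volume_Ioo, ENNReal.ofReal_eq_zero] at h3
  linarith

theorem ex_zeros {e1 e2 : Ex} (h1 : e1.Pos) (h2 : e2.Pos) (hne : ∃ z : ℝ, 0 < z ∧
    e1.rv z ≠ e2.rv z) (S : Finset ℝ) (hS : ∀ z ∈ S, 0 < z ∧ e1.rv z = e2.rv z) :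
    S.card ≤ Zk (e1.sz + e2.sz) := by
  classical
  have an1 := Ex.analytic h1
  have an2 := Ex.analytic h2
  obtain ⟨F, hF⟩ : ∃ F : ℝ → ℝ, F = fun z => e1.rv z - e2.rv z := ⟨_, rfl⟩
  obtain ⟨F', hF'⟩ : ∃ F' : ℝ → ℝ, F' = fun z => deriv (fun z => e1.rv z) z -
    deriv (fun z => e2.rv z) z := ⟨_, rfl⟩
  have anF : AnalyticOnNhd ℝ F (Set.Ioi 0) := by
    rw [hF]
    exact an1.sub an2
  have hder : ∀ x ∈ Set.Ioi (0 : ℝ), HasDerivAt F (F' x) x := by
    intro x hx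
    rw [hF, hF']
    exact (an1 x hx).differentiableAt.hasDerivAt.sub (an2 x hx).differentiableAt.hasDerivAt
  have hcont : ContinuousOn F (Set.Ioi 0) := fun x hx =>
    (hder x hx).continuousAt.continuousWithinAt
  have hS0 : ∀ z ∈ S, F z = 0 := by
    intro z hz
    rw [hF]
    exact sub_eq_zero.2 (hS z hz).2
  have hiso : ∀ z ∈ S, ∀ᶠ w in 𝓝[≠] z, F w ≠ 0 := by
    intro z hz
    by_contra hc
    have hc' : ∃ᶠ w in 𝓝[≠] z, F w = 0 := by
      intro h
      exact hc h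
    have h3 := anF.eqOn_zero_of_preconnected_of_frequently_eq_zero isPreconnected_Ioi
      (hS z hz).1 hc'
    obtain ⟨y, hy, hy'⟩ := hne
    have h4 := h3 hy
    rw [hF] at h4
    exact hy' (sub_eq_zero.1 h4)
  have hδ : ∀ᶠ δ in 𝓝[>] (0 : ℝ), ∀ z ∈ S, δ < z ∧ F (z - δ) ≠ 0 ∧ F (z + δ) ≠ 0 ∧
      ∀ z' ∈ S, z ≠ z' → 2 * δ < |z - z'| := by
    rw [Filter.eventually_all_finset]
    intro z hz
    have t1 : ∀ᶠ δ in 𝓝[>] (0 : ℝ), δ < z :=
      (eventually_lt_nhds (hS z hz).1).filter_mono nhdsWithin_le_nhds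
    have t2 : Tendsto (fun δ : ℝ => z - δ) (𝓝[>] 0) (𝓝[≠] z) := by
      refine tendsto_nhdsWithin_iff.2 ⟨?_, ?_⟩
      · have : Tendsto (fun δ : ℝ => z - δ) (𝓝 0) (𝓝 (z - 0)) :=
          tendsto_const_nhds.sub tendsto_id
        rw [sub_zero] at this
        exact this.mono_left nhdsWithin_le_nhds
      · filter_upwards [self_mem_nhdsWithin] with δ hδ
        have hδ' : 0 < δ := hδ
        simp only [Set.mem_compl_iff, Set.mem_singleton_iff]
        linarith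
    have t3 : Tendsto (fun δ : ℝ => z + δ) (𝓝[>] 0) (𝓝[≠] z) := by
      refine tendsto_nhdsWithin_iff.2 ⟨?_, ?_⟩
      · have : Tendsto (fun δ : ℝ => z + δ) (𝓝 0) (𝓝 (z + 0)) :=
          tendsto_const_nhds.add tendsto_id
        rw [add_zero] at this
        exact this.mono_left nhdsWithin_le_nhds
      · filter_upwards [self_mem_nhdsWithin] with δ hδ
        have hδ' : 0 < δ := hδ
        simp only [Set.mem_compl_iff, Set.mem_singleton_iff]
        linarith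
    have t4 : ∀ᶠ δ in 𝓝[>] (0 : ℝ), ∀ z' ∈ S, z ≠ z' → 2 * δ < |z - z'| := by
      rw [Filter.eventually_all_finset]
      intro z' _
      by_cases hzz : z = z'
      · exact Eventually.of_forall fun δ h => absurd hzz h
      · have hpos : 0 < |z - z'| / 2 := by
          have := abs_pos.2 (sub_ne_zero.2 hzz)
          linarith
        filter_upwards [(eventually_lt_nhds hpos).filter_mono nhdsWithin_le_nhds] with δ hδ _
        linarith
    filter_upwards [t1, t2.eventually (hiso z hz), t3.eventually (hiso z hz), t4] with δ a b c d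
    exact ⟨a, b, c, d⟩
  obtain ⟨δ, hδ1, hδ0⟩ := (hδ.and self_mem_nhdsWithin).exists
  have hδ0' : 0 < δ := hδ0
  -- the level
  obtain ⟨η, hη0, hη⟩ : ∃ η : ℝ, 0 < η ∧ ∀ z ∈ S, η ≤ |F (z - δ)| ∧ η ≤ |F (z + δ)| := by
    have h3 : ∀ᶠ η in 𝓝[>] (0 : ℝ), ∀ z ∈ S, η ≤ |F (z - δ)| ∧ η ≤ |F (z + δ)| := by
      rw [Filter.eventually_all_finset]
      intro z hz
      obtain ⟨-, a, b, -⟩ := hδ1 z hz
      filter_upwards [(eventually_le_nhds (abs_pos.2 a)).filter_mono nhdsWithin_le_nhds,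
        (eventually_le_nhds (abs_pos.2 b)).filter_mono nhdsWithin_le_nhds] with η c d
      exact ⟨c, d⟩
    obtain ⟨η, hη1, hη2⟩ := (h3.and self_mem_nhdsWithin).exists
    exact ⟨η, hη2, hη1⟩
  obtain ⟨ε, hε0, hεη, hε1, hε2⟩ := ExZ_eps (ExZ_sard (Set.Ioi (0 : ℝ)) hder) hη0
  have hcrit : ∀ c, 0 < c → (F c = ε ∨ F c = -ε) → F' c ≠ 0 := by
    intro c hc h3 h4
    rcases h3 with h3 | h3
    · exact hε1 ⟨c, ⟨hc, h4⟩, h3⟩
    · exact hε2 ⟨c, ⟨hc, h4⟩, h3⟩
  have hp : ∀ z ∈ S, ∃ c, z - δ < c ∧ c < z ∧ (F c = ε ∨ F c = -ε) := by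
    intro z hz
    obtain ⟨a, -, -, -⟩ := hδ1 z hz
    have hle : z - δ ≤ z := by linarith
    obtain ⟨c, hc, hca, hcb, hcv⟩ := ExZ_ivt (F := F) (a := z) (b := z - δ) (ε := ε)
      (hcont.mono (by
        rw [Set.uIcc_of_ge hle]
        intro x hx
        have := hx.1
        show 0 < x
        linarith)) (hS0 z hz) hε0 (lt_of_lt_of_le hεη (hη z hz).1)
    rw [Set.uIcc_of_ge hle] at hc
    exact ⟨c, lt_of_le_of_ne hc.1 (Ne.symm hcb), lt_of_le_of_ne hc.2 hca, hcv⟩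
  have hq : ∀ z ∈ S, ∃ c, z < c ∧ c < z + δ ∧ (F c = ε ∨ F c = -ε) := by
    intro z hz
    have hle : z ≤ z + δ := by linarith
    obtain ⟨c, hc, hca, hcb, hcv⟩ := ExZ_ivt (F := F) (a := z) (b := z + δ) (ε := ε)
      (hcont.mono (by
        rw [Set.uIcc_of_le hle]
        intro x hx
        have := hx.1
        have := (hS z hz).1
        show 0 < x
        linarith)) (hS0 z hz) hε0 (lt_of_lt_of_le hεη (hη z hz).2)
    rw [Set.uIcc_of_le hle] at hc
    exact ⟨c, lt_of_le_of_ne hc.1 (Ne.symm hca), lt_of_le_of_ne hc.2 hcb, hcv⟩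
  choose! p hp1 hp2 hp3 using hp
  choose! q hq1 hq2 hq3 using hq
  have hsep : ∀ z ∈ S, ∀ z' ∈ S, |z - z'| < 2 * δ → z = z' := by
    intro z hz z' hz' h
    by_contra hc
    have := (hδ1 z hz).2.2.2 z' hz' hc
    linarith
  have hpi : Set.InjOn p S := by
    intro z hz z' hz' h
    refine hsep z hz z' hz' ?_
    have a1 := hp1 z hz
    have a2 := hp2 z hz
    have a3 := hp1 z' hz'
    have a4 := hp2 z' hz'
    rw [h] at a1 a2
    rw [abs_lt]
    constructor <;> linarith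
  have hqi : Set.InjOn q S := by
    intro z hz z' hz' h
    refine hsep z hz z' hz' ?_
    have a1 := hq1 z hz
    have a2 := hq2 z hz
    have a3 := hq1 z' hz'
    have a4 := hq2 z' hz'
    rw [h] at a1 a2
    rw [abs_lt]
    constructor <;> linarith
  have hdj : Disjoint (S.image p) (S.image q) := by
    rw [Finset.disjoint_left]
    intro x hx hx'
    obtain ⟨z, hz, rfl⟩ := Finset.mem_image.1 hx
    obtain ⟨z', hz', h⟩ := Finset.mem_image.1 hx'
    have a1 := hp1 z hz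
    have a2 := hp2 z hz
    have a3 := hq1 z' hz'
    have a4 := hq2 z' hz'
    rw [h] at a3 a4
    have hzz := hsep z hz z' hz' (by rw [abs_lt]; constructor <;> linarith)
    rw [hzz] at a2
    rw [hzz] at a3
    linarith
  obtain ⟨T, hT⟩ : ∃ T, T = S.image p ∪ S.image q := ⟨_, rfl⟩
  have hTc : T.card = 2 * S.card := by
    rw [hT, Finset.card_union_of_disjoint hdj, Finset.card_image_of_injOn hpi,
      Finset.card_image_of_injOn hqi]
    ring
  have hTv : ∀ c ∈ T, 0 < c ∧ (F c = ε ∨ F c = -ε) := by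
    intro c hc
    rw [hT, Finset.mem_union] at hc
    rcases hc with hc | hc
    · obtain ⟨z, hz, rfl⟩ := Finset.mem_image.1 hc
      exact ⟨by linarith [hp1 z hz, (hδ1 z hz).1], hp3 z hz⟩
    · obtain ⟨z, hz, rfl⟩ := Finset.mem_image.1 hc
      exact ⟨by linarith [hq1 z hz, (hS z hz).1], hq3 z hz⟩
  have c1 : (T.filter fun c => F c = ε).card ≤ Zk (e1.sz + e2.sz) := by
    refine simple_count h1 h2 ε _ fun c hc => ?_
    rw [Finset.mem_filter] at hc
    have h3 := hcrit c (hTv c hc.1).1 (hTv c hc.1).2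
    rw [hF'] at h3
    have h4 := hc.2
    rw [hF] at h4
    exact ⟨(hTv c hc.1).1, h4, h3⟩
  have c2 : (T.filter fun c => ¬ F c = ε).card ≤ Zk (e1.sz + e2.sz) := by
    refine simple_count h1 h2 (-ε) _ fun c hc => ?_
    rw [Finset.mem_filter] at hc
    have h3 := hcrit c (hTv c hc.1).1 (hTv c hc.1).2
    rw [hF'] at h3
    have h4 := (hTv c hc.1).2.resolve_left hc.2
    rw [hF] at h4
    exact ⟨(hTv c hc.1).1, h4, h3⟩
  have c3 := Finset.card_filter_add_card_filter_not (s := T) (fun c => F c = ε)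
  omega

end Pool.Agent.KV
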