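import Pool.Agent.H.MP_b2d7dd_lc.KV.Deriv

/-!
# Module Hom: multiplying one exponential by a parameter

`c : Option κ → ι`, `P i` polynomials in `x` and `Y_j`, `j : Option κ`. `gl c P x l i` is the value
of `P i` with `Y_none = l * exp (x_(c none))`; `Jl c P x l` is the value of the Jacobian at the same
point.

`hatP P i`: the polynomial in the variables `x` and `s` (index `none` of `Option ι`) and `Y_j`,
`j : κ`, obtained by writing `s` for `Y_none`. `hatJ` the same for the Jacobian.
`zerP P i`: `P i` with `Y_none = 0`.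
-/

namespace Pool.Agent.KV

open MvPolynomial

variable {ι κ : Type} [Fintype ι] [Fintype κ]

/-- The point with parameter. -/
noncomputable def ptl (c : Option κ → ι) (x : ι → ℝ) (l : ℝ) : ι ⊕ Option κ → ℝ :=
  Sum.elim x (fun j => Option.elim j (l * Real.exp (x (c none)))
    (fun j => Real.exp (x (c (some j)))))

/-- The system with parameter. -/
noncomputable def gl (c : Option κ → ι) (P : ι → MvPolynomial (ι ⊕ Option κ) ℝ)
    (p : (ι → ℝ) × ℝ) (i : ι) : ℝ := MvPolynomial.eval (ptl c p.1 p.2) (P i)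

/-- The Jacobian with parameter. -/
noncomputable def Jl (c : Option κ → ι) (P : ι → MvPolynomial (ι ⊕ Option κ) ℝ)
    (p : (ι → ℝ) × ℝ) : ℝ := MvPolynomial.eval (ptl c p.1 p.2) (jac c P)

omit [Fintype ι] [Fintype κ] in
private theorem Hom_ptl_one (c : Option κ → ι) (x : ι → ℝ) : ptl c x 1 = pt c x := by
  funext s
  rcases s with i | (_ | j)
  · rfl
  · show 1 * Real.exp (x (c none)) = Real.exp (x (c none))
    rw [one_mul]
  · rfl

/-- the value of the Jacobian -/
private theorem Hom_jac0 {κ : Type} [Fintype κ] (inst : DecidableEq ι) (c : κ → ι)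
    (P : ι → MvPolynomial (ι ⊕ κ) ℝ) :
    jac c P = Matrix.det (Matrix.of fun i j => dd c j (P i)) := by
  have h : inst = fun a b => Classical.propDecidable (a = b) := Subsingleton.elim _ _
  subst h
  rfl

private theorem Hom_jac {κ : Type} [Fintype κ] [DecidableEq ι] (c : κ → ι)
    (P : ι → MvPolynomial (ι ⊕ κ) ℝ) (q : ι ⊕ κ → ℝ) :
    MvPolynomial.eval q (jac c P) =
      Matrix.det (Matrix.of fun i j => MvPolynomial.eval q (dd c j (P i))) := by
  rw [Hom_jac0 inferInstance c P, RingHom.map_det]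
  rfl

omit [Fintype ι] in
private theorem Hom_dd {κ : Type} [Fintype κ] [DecidableEq ι] (c : κ → ι) (i : ι)
    (P : MvPolynomial (ι ⊕ κ) ℝ) (q : ι ⊕ κ → ℝ) :
    MvPolynomial.eval q (dd c i P) = MvPolynomial.eval q (pderiv (Sum.inl i) P) +
      ∑ j : κ, if c j = i then q (Sum.inr j) * MvPolynomial.eval q (pderiv (Sum.inr j) P) else 0 := by
  unfold dd
  rw [map_add, map_sum]
  congr 1
  refine Finset.sum_congr rfl fun j _ => ?_
  by_cases h : c j = i
  · rw [if_pos h, if_pos h, map_mul, eval_X]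
  · rw [if_neg h, if_neg h, map_zero]

private theorem Hom_dir {κ : Type} [Fintype κ] (c : κ → ι) (P : MvPolynomial (ι ⊕ κ) ℝ)
    (q : ι ⊕ κ → ℝ) (v : ι → ℝ) :
    ∑ i, MvPolynomial.eval q (dd c i P) * v i =
      ∑ i, MvPolynomial.eval q (pderiv (Sum.inl i) P) * v i +
        ∑ j, MvPolynomial.eval q (pderiv (Sum.inr j) P) * (q (Sum.inr j) * v (c j)) := by
  classical
  simp_rw [Hom_dd, add_mul, Finset.sum_mul]
  rw [Finset.sum_add_distrib, Finset.sum_comm]
  congr 1
  refine Finset.sum_congr rfl fun j _ => ?_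
  rw [Finset.sum_eq_single (c j)]
  · rw [if_pos rfl]
    ring
  · intro i _ hi
    rw [if_neg (Ne.symm hi), zero_mul]
  · intro h
    exact absurd (Finset.mem_univ _) h

theorem gl_one (c : Option κ → ι) (P : ι → MvPolynomial (ι ⊕ Option κ) ℝ) (x : ι → ℝ) (i : ι) :
    gl c P (x, 1) i = ev c (P i) x := by
  unfold gl ev
  rw [Hom_ptl_one]

theorem Jl_one (c : Option κ → ι) (P : ι → MvPolynomial (ι ⊕ Option κ) ℝ) (x : ι → ℝ) :
    Jl c P (x, 1) = ev c (jac c P) x := by
  unfold Jl ev
  rw [Hom_ptl_one]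

omit [Fintype ι] [Fintype κ] in
private theorem Hom_ptl_cont (c : Option κ → ι) :
    Continuous fun p : (ι → ℝ) × ℝ => ptl c p.1 p.2 := by
  refine continuous_pi fun s => ?_
  rcases s with i | (_ | j)
  · exact (continuous_apply i).comp continuous_fst
  · show Continuous fun p : (ι → ℝ) × ℝ => p.2 * Real.exp (p.1 (c none))
    fun_prop
  · show Continuous fun p : (ι → ℝ) × ℝ => Real.exp (p.1 (c (some j)))
    fun_prop

theorem continuous_gl (c : Option κ → ι) (P : ι → MvPolynomial (ι ⊕ Option κ) ℝ) :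
    Continuous (gl c P) :=
  continuous_pi fun i => (MvPolynomial.continuous_eval (P i)).comp (Hom_ptl_cont c)

theorem continuous_Jl (c : Option κ → ι) (P : ι → MvPolynomial (ι ⊕ Option κ) ℝ) :
    Continuous (Jl c P) :=
  (MvPolynomial.continuous_eval (jac c P)).comp (Hom_ptl_cont c)

/-- the derivatives of the coordinates of the point -/
private noncomputable def Hom_d (c : Option κ → ι) (p : (ι → ℝ) × ℝ) :
    ι ⊕ Option κ → ((ι → ℝ) × ℝ →L[ℝ] ℝ) :=
  Sum.elim (fun i => (ContinuousLinearMap.proj i : (ι → ℝ) →L[ℝ] ℝ).comp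
      (ContinuousLinearMap.fst ℝ (ι → ℝ) ℝ))
    (fun j => Option.elim j
      (p.2 • (Real.exp (p.1 (c none)) • (ContinuousLinearMap.proj (c none) : (ι → ℝ) →L[ℝ] ℝ).comp
        (ContinuousLinearMap.fst ℝ (ι → ℝ) ℝ)) + Real.exp (p.1 (c none)) •
          ContinuousLinearMap.snd ℝ (ι → ℝ) ℝ)
      (fun j => Real.exp (p.1 (c (some j))) •
        (ContinuousLinearMap.proj (c (some j)) : (ι → ℝ) →L[ℝ] ℝ).comp
        (ContinuousLinearMap.fst ℝ (ι → ℝ) ℝ)))

omit [Fintype κ] in
private theorem Hom_d_has (c : Option κ → ι) (p : (ι → ℝ) × ℝ) (s : ι ⊕ Option κ) :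
    HasStrictFDerivAt (fun q : (ι → ℝ) × ℝ => ptl c q.1 q.2 s) (Hom_d c p s) p := by
  have h1 : ∀ i : ι, HasStrictFDerivAt (fun q : (ι → ℝ) × ℝ => q.1 i)
      ((ContinuousLinearMap.proj i : (ι → ℝ) →L[ℝ] ℝ).comp
      (ContinuousLinearMap.fst ℝ (ι → ℝ) ℝ)) p := fun i =>
    ((ContinuousLinearMap.proj i : (ι → ℝ) →L[ℝ] ℝ).comp
      (ContinuousLinearMap.fst ℝ (ι → ℝ) ℝ)).hasStrictFDerivAt
  rcases s with i | (_ | j)
  · exact h1 i
  · have h2 : HasStrictFDerivAt (fun q : (ι → ℝ) × ℝ => q.2)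
        (ContinuousLinearMap.snd ℝ (ι → ℝ) ℝ) p := (ContinuousLinearMap.snd ℝ (ι → ℝ) ℝ).hasStrictFDerivAt
    exact h2.mul (h1 (c none)).exp
  · exact (h1 (c (some j))).exp

omit [Fintype ι] [Fintype κ] in
private theorem Hom_d_app (c : Option κ → ι) (p : (ι → ℝ) × ℝ) (v : ι → ℝ) :
    (∀ i, Hom_d c p (Sum.inl i) (v, 0) = v i) ∧
    ∀ j, Hom_d c p (Sum.inr j) (v, 0) = ptl c p.1 p.2 (Sum.inr j) * v (c j) := by
  refine ⟨fun i => rfl, fun j => ?_⟩
  rcases j with _ | j
  · simp [Hom_d, ptl]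
    ring
  · simp [Hom_d, ptl]

/-- The strict derivative, and its injectivity in the direction of `x` where the Jacobian does not
vanish (the matrix of `v ↦ g' (v, 0)` has the entries `eval (ptl ..) (dd c j (P i))` and the
determinant `Jl`). -/
theorem gl_deriv (c : Option κ → ι) (P : ι → MvPolynomial (ι ⊕ Option κ) ℝ)
    (p : (ι → ℝ) × ℝ) :
    ∃ g' : (ι → ℝ) × ℝ →L[ℝ] (ι → ℝ), HasStrictFDerivAt (gl c P) g' p ∧
      (Jl c P p ≠ 0 → ∀ v : ι → ℝ, g' (v, 0) = 0 → v = 0) := by
  classical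
  refine ⟨ContinuousLinearMap.pi fun i => ∑ s,
    (MvPolynomial.eval (ptl c p.1 p.2) (pderiv s (P i))) • Hom_d c p s, ?_, ?_⟩
  · exact hasStrictFDerivAt_pi.2 fun i =>
      hasStrictFDerivAt_eval (φ := fun q : (ι → ℝ) × ℝ => ptl c q.1 q.2) (Hom_d_has c p) (P i)
  · intro hJ v hv
    have hM : (Matrix.of fun i j => MvPolynomial.eval (ptl c p.1 p.2) (dd c j (P i))).det ≠ 0 := by
      rw [← Hom_jac]
      exact hJ
    refine Matrix.eq_zero_of_mulVec_eq_zero hM ?_
    funext i
    have h1 : (∑ s, (MvPolynomial.eval (ptl c p.1 p.2) (pderiv s (P i))) • Hom_d c p s) (v, 0) = 0 :=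
      congrFun hv i
    rw [sum_apply, Fintype.sum_sum_type] at h1
    have h2 := Hom_dir c (P i) (ptl c p.1 p.2) v
    show ∑ j, MvPolynomial.eval (ptl c p.1 p.2) (dd c j (P i)) * v j = 0
    rw [h2]
    refine Eq.trans ?_ h1
    congr 1
    refine Finset.sum_congr rfl fun k _ => ?_
    show _ = MvPolynomial.eval (ptl c p.1 p.2) (pderiv (Sum.inr k) (P i)) •
      Hom_d c p (Sum.inr k) (v, 0)
    rw [(Hom_d_app c p v).2, smul_eq_mul]

/-- The map of the variables for `hatP`. -/
def hatV : ι ⊕ Option κ → Option ι ⊕ κ :=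
  Sum.elim (fun i => Sum.inl (some i)) (fun j => Option.elim j (Sum.inl none) Sum.inr)

/-- The exponentials which remain. -/
def hatc (c : Option κ → ι) : κ → Option ι := fun j => some (c (some j))

/-- The system in `x` and `s`. -/
noncomputable def hatP (c : Option κ → ι) (P : ι → MvPolynomial (ι ⊕ Option κ) ℝ) :
    Option ι → MvPolynomial (Option ι ⊕ κ) ℝ :=
  fun o => Option.elim o (rename hatV (jac c P)) (fun i => rename hatV (P i))

theorem totalDegree_hatP {d : ℕ} (c : Option κ → ι) {P : ι → MvPolynomial (ι ⊕ Option κ) ℝ}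
    (hP : ∀ i, (P i).totalDegree ≤ d) (hι : 1 ≤ Fintype.card ι) (o : Option ι) :
    (hatP c P o).totalDegree ≤ Fintype.card ι * d := by
  rcases o with _ | i
  · exact (totalDegree_rename_le _ _).trans (totalDegree_jac c hP)
  · refine ((totalDegree_rename_le _ _).trans (hP i)).trans ?_
    exact Nat.le_mul_of_pos_left _ hι

/-- The point `(x, s)` with `s = l * exp (x_(c none))`. -/
noncomputable def hatx (c : Option κ → ι) (p : (ι → ℝ) × ℝ) : Option ι → ℝ :=
  fun o => Option.elim o (p.2 * Real.exp (p.1 (c none))) p.1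

theorem hatx_inj (c : Option κ → ι) : Function.Injective (hatx (ι := ι) (κ := κ) c) := by
  rintro ⟨x, l⟩ ⟨x', l'⟩ h
  have h1 : x = x' := by
    funext i
    exact congrFun h (some i)
  subst h1
  have h2 : l * Real.exp (x (c none)) = l' * Real.exp (x (c none)) := congrFun h none
  rw [mul_right_cancel₀ (Real.exp_pos _).ne' h2]

omit [Fintype ι] [Fintype κ] in
private theorem Hom_hat (c : Option κ → ι) (p : (ι → ℝ) × ℝ) :
    pt (hatc c) (hatx c p) ∘ hatV = ptl c p.1 p.2 := by
  funext s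
  rcases s with i | (_ | j) <;> rfl

theorem ev_hatP (c : Option κ → ι) (P : ι → MvPolynomial (ι ⊕ Option κ) ℝ)
    (p : (ι → ℝ) × ℝ) (i : ι) : ev (hatc c) (hatP c P (some i)) (hatx c p) = gl c P p i := by
  show MvPolynomial.eval (pt (hatc c) (hatx c p)) (rename hatV (P i)) = _
  rw [eval_rename, Hom_hat]
  rfl

theorem ev_hatJ (c : Option κ → ι) (P : ι → MvPolynomial (ι ⊕ Option κ) ℝ)
    (p : (ι → ℝ) × ℝ) : ev (hatc c) (hatP c P none) (hatx c p) = Jl c P p := by
  show MvPolynomial.eval (pt (hatc c) (hatx c p)) (rename hatV (jac c P)) = _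
  rw [eval_rename, Hom_hat]
  rfl

/-- The system with `Y_none = 0`. -/
noncomputable def zerP (P : ι → MvPolynomial (ι ⊕ Option κ) ℝ) :
    ι → MvPolynomial (ι ⊕ κ) ℝ :=
  fun i => aeval (Sum.elim (fun i => (X (Sum.inl i) : MvPolynomial (ι ⊕ κ) ℝ))
    (fun j => Option.elim j 0 (fun j => X (Sum.inr j)))) (P i)

/-- Substituting variables or `0` for the variables does not raise the degree. -/
theorem totalDegree_zerP {d : ℕ} {P : ι → MvPolynomial (ι ⊕ Option κ) ℝ}
    (hP : ∀ i, (P i).totalDegree ≤ d) (i : ι) : (zerP P i).totalDegree ≤ d := by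
  unfold zerP
  rw [aeval_def, eval₂_eq']
  refine totalDegree_finsetSum_le fun m hm => ?_
  refine (totalDegree_mul _ _).trans ?_
  have h1 : (algebraMap ℝ (MvPolynomial (ι ⊕ κ) ℝ) (coeff m (P i))).totalDegree = 0 :=
    totalDegree_C _
  rw [h1, zero_add]
  refine (totalDegree_finsetProd _ _).trans ?_
  have h2 : ∑ s, m s ≤ (P i).totalDegree := by
    have h3 := le_totalDegree hm
    rwa [Finsupp.sum_fintype _ _ fun _ => rfl] at h3
  refine le_trans (Finset.sum_le_sum fun s _ => ?_) (h2.trans (hP i))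
  refine (totalDegree_pow _ _).trans ?_
  refine (Nat.mul_le_mul_left _ ?_).trans (mul_one _).le
  rcases s with i | (_ | j)
  · exact (totalDegree_X _).le
  · exact totalDegree_zero.le.trans zero_le_one
  · exact (totalDegree_X _).le

/-- the substitution -/
private noncomputable def HomF (ι κ : Type) : ι ⊕ Option κ → MvPolynomial (ι ⊕ κ) ℝ :=
  Sum.elim (fun i => (X (Sum.inl i) : MvPolynomial (ι ⊕ κ) ℝ))
    (fun j => Option.elim j 0 (fun j => X (Sum.inr j)))

omit [Fintype ι] [Fintype κ] in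
private theorem Hom_evalF (c : Option κ → ι) (x : ι → ℝ) (R : MvPolynomial (ι ⊕ Option κ) ℝ) :
    MvPolynomial.eval (pt (fun j => c (some j)) x) (aeval (HomF ι κ) R) =
      MvPolynomial.eval (ptl c x 0) R := by
  induction R using MvPolynomial.induction_on with
  | C a => rw [aeval_C, eval_C]; exact eval_C a
  | add p q hp hq => rw [map_add, map_add, map_add, hp, hq]
  | mul_X p s hp =>
    rw [map_mul, map_mul, map_mul, hp, aeval_X, eval_X]
    congr 1
    rcases s with i | (_ | j)
    · exact eval_X _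
    · show MvPolynomial.eval _ (0 : MvPolynomial (ι ⊕ κ) ℝ) = 0 * Real.exp (x (c none))
      rw [map_zero, zero_mul]
    · exact eval_X _

omit [Fintype ι] [Fintype κ] in
private theorem Hom_pdF (s : ι ⊕ κ) (R : MvPolynomial (ι ⊕ Option κ) ℝ) :
    pderiv s (aeval (HomF ι κ) R) = aeval (HomF ι κ) (pderiv (Sum.map id some s) R) := by
  classical
  induction R using MvPolynomial.induction_on with
  | C a =>
    rw [aeval_C, pderiv_C, map_zero]
    exact pderiv_C
  | add p q hp hq => rw [map_add, map_add, map_add, map_add, hp, hq]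
  | mul_X p t hp =>
    rw [map_mul, pderiv_mul, pderiv_mul, map_add, map_mul, map_mul, hp, aeval_X]
    congr 2
    rw [pderiv_X]
    rcases s with i | j <;> rcases t with i' | (_ | j')
    · show pderiv (Sum.inl i) (X (Sum.inl i')) = _
      rw [pderiv_X]
      by_cases h : i' = i
      · subst h; simp
      · rw [Pi.single_eq_of_ne (by simpa using h), Pi.single_eq_of_ne (by simpa using h), map_zero]
    · show pderiv (Sum.inl i) 0 = _
      rw [map_zero, Pi.single_eq_of_ne (by simp), map_zero]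
    · show pderiv (Sum.inl i) (X (Sum.inr j')) = _
      rw [pderiv_X, Pi.single_eq_of_ne (by simp), Pi.single_eq_of_ne (by simp), map_zero]
    · show pderiv (Sum.inr j) (X (Sum.inl i')) = _
      rw [pderiv_X, Pi.single_eq_of_ne (by simp), Pi.single_eq_of_ne (by simp), map_zero]
    · show pderiv (Sum.inr j) 0 = _
      rw [map_zero, Pi.single_eq_of_ne (by simp), map_zero]
    · show pderiv (Sum.inr j) (X (Sum.inr j')) = _
      rw [pderiv_X]
      by_cases h : j' = j
      · subst h; simp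
      · rw [Pi.single_eq_of_ne (by simpa using h), Pi.single_eq_of_ne (by simpa using h), map_zero]

theorem ev_zerP (c : Option κ → ι) (P : ι → MvPolynomial (ι ⊕ Option κ) ℝ) (x : ι → ℝ) (i : ι) :
    ev (fun j => c (some j)) (zerP P i) x = gl c P (x, 0) i :=
  Hom_evalF c x (P i)

/-- Compare the derivatives of the two sides of `ev_zerP` (or: `dd` commutes with the
substitution up to the term with `X (inr none)`, which becomes zero). -/
theorem ev_jac_zerP (c : Option κ → ι) (P : ι → MvPolynomial (ι ⊕ Option κ) ℝ) (x : ι → ℝ) :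
    ev (fun j => c (some j)) (jac (fun j => c (some j)) (zerP P)) x = Jl c P (x, 0) := by
  classical
  unfold ev Jl
  rw [Hom_jac, Hom_jac]
  congr 1
  ext i k
  show MvPolynomial.eval _ (dd _ k (zerP P i)) = MvPolynomial.eval _ (dd c k (P i))
  rw [Hom_dd, Hom_dd, Fintype.sum_option]
  have h1 : ∀ s : ι ⊕ κ, MvPolynomial.eval (pt (fun j => c (some j)) x) (pderiv s (zerP P i)) =
      MvPolynomial.eval (ptl c x 0) (pderiv (Sum.map id some s) (P i)) := by
    intro s
    show MvPolynomial.eval _ (pderiv s (aeval (HomF ι κ) (P i))) = _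
    rw [Hom_pdF, Hom_evalF]
  have h2 : ptl c x 0 (Sum.inr none) = 0 := by
    show 0 * Real.exp (x (c none)) = 0
    rw [zero_mul]
  rw [h1, h2, zero_mul, ite_self, zero_add]
  congr 1
  refine Finset.sum_congr rfl fun j _ => ?_
  rw [h1]
  rfl

end Pool.Agent.KV
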