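import Pool.Agent.H.MP_b2d7dd_lc.KV.ExZ
import Pool.Agent.H.MP_b2d7dd_lc.TI.Terms

/-!
# Module Line: zeros on the lines, for all terms

`toEx A B t`: the expression of the term `t`, `A`, `B` giving the expressions (a constant or `y`)
of the variables outside resp. inside exponents. `sub p a y` is the assignment `a` with the value
`y` for the variables in `p`.
-/

namespace Pool.Agent.KV

open Pool.Agent.TI

/-- The expression of a term. -/
def toEx (A B : List Bool → Ex) : Tm → Ex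
  | .one => .cst 1
  | .var w => A w
  | .add s t => .add (toEx A B s) (toEx A B t)
  | .mul s t => .mul (toEx A B s) (toEx A B t)
  | .pow s t => .pow (toEx A B s) (toEx B B t)

open Classical in
/-- Substitution in an assignment. -/
noncomputable def sub (p : Set (List Bool)) (a : List Bool → ℕ) (y : ℕ) : List Bool → ℕ :=
  fun w => if w ∈ p then y else a w

open Classical in
/-- The expressions of the variables. -/
noncomputable def lf (p : Set (List Bool)) (a : List Bool → ℕ) : List Bool → Ex :=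
  fun w => if w ∈ p then .y else .cst (a w)

theorem toEx_pos {a b : List Bool → ℕ} (ha : ∀ w, 0 < a w) (hb : ∀ w, 0 < b w)
    (pa pb : Set (List Bool)) (t : Tm) : (toEx (lf pa a) (lf pb b) t).Pos := by
  induction t generalizing a pa with
  | one => exact one_pos
  | var w =>
    show (lf pa a w).Pos
    unfold lf
    split_ifs
    · trivial
    · exact Nat.cast_pos.2 (ha w)
  | add s t ihs iht => exact ⟨ihs ha pa, iht ha pa⟩
  | mul s t ihs iht => exact ⟨ihs ha pa, iht ha pa⟩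
  | pow s t ihs iht => exact ⟨ihs ha pa, iht hb pb⟩

theorem sz_toEx (a b : List Bool → ℕ) (pa pb : Set (List Bool)) (t : Tm) :
    (toEx (lf pa a) (lf pb b) t).sz = t.sz := by
  induction t generalizing a pa with
  | one => rfl
  | var w =>
    show (lf pa a w).sz = 1
    unfold lf
    split_ifs <;> rfl
  | add s t ihs iht =>
    show (toEx (lf pa a) (lf pb b) s).sz + (toEx (lf pa a) (lf pb b) t).sz + 1 = s.sz + t.sz + 1
    rw [ihs, iht]
  | mul s t ihs iht =>
    show (toEx (lf pa a) (lf pb b) s).sz + (toEx (lf pa a) (lf pb b) t).sz + 1 = s.sz + t.sz + 1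
    rw [ihs, iht]
  | pow s t ihs iht =>
    show (toEx (lf pa a) (lf pb b) s).sz + (toEx (lf pb b) (lf pb b) t).sz + 1 = s.sz + t.sz + 1
    rw [ihs, iht]

private theorem Line_sub_pos {a : List Bool → ℕ} (ha : ∀ w, 0 < a w) (p : Set (List Bool)) {y : ℕ}
    (hy : 0 < y) (w : List Bool) : 0 < sub p a y w := by
  unfold sub
  split_ifs
  · exact hy
  · exact ha w

/-- `exp (t log s) = s ^ t` for natural numbers. -/
theorem rv_toEx {a b : List Bool → ℕ} (ha : ∀ w, 0 < a w) (hb : ∀ w, 0 < b w)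
    (pa pb : Set (List Bool)) {y : ℕ} (hy : 0 < y) (t : Tm) :
    (toEx (lf pa a) (lf pb b) t).rv (y : ℝ) = ((t.ev (sub pa a y) (sub pb b y) : ℕ) : ℝ) := by
  induction t generalizing a pa with
  | one => exact Nat.cast_one.symm
  | var w =>
    show (lf pa a w).rv (y : ℝ) = ((sub pa a y w : ℕ) : ℝ)
    unfold lf sub
    split_ifs <;> rfl
  | add s t ihs iht =>
    show (toEx (lf pa a) (lf pb b) s).rv (y : ℝ) + (toEx (lf pa a) (lf pb b) t).rv (y : ℝ) =
      ((s.ev (sub pa a y) (sub pb b y) + t.ev (sub pa a y) (sub pb b y) : ℕ) : ℝ)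
    rw [ihs ha, iht ha, Nat.cast_add]
  | mul s t ihs iht =>
    show (toEx (lf pa a) (lf pb b) s).rv (y : ℝ) * (toEx (lf pa a) (lf pb b) t).rv (y : ℝ) =
      ((s.ev (sub pa a y) (sub pb b y) * t.ev (sub pa a y) (sub pb b y) : ℕ) : ℝ)
    rw [ihs ha, iht ha, Nat.cast_mul]
  | pow s t ihs iht =>
    show Real.exp ((toEx (lf pb b) (lf pb b) t).rv (y : ℝ) *
        Real.log ((toEx (lf pa a) (lf pb b) s).rv (y : ℝ))) =
      ((s.ev (sub pa a y) (sub pb b y) ^ t.val (sub pb b y) : ℕ) : ℝ)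
    have h1 : (0 : ℝ) < ((s.ev (sub pa a y) (sub pb b y) : ℕ) : ℝ) :=
      Nat.cast_pos.2 (Tm.ev_pos (Line_sub_pos ha pa hy) _ s)
    rw [ihs ha, iht hb, ← Tm.val_eq_ev, mul_comm, ← Real.rpow_def_of_pos h1, Real.rpow_natCast,
      Nat.cast_pow]

/-- The number of coincidences on a line. -/
theorem zerosG (s t : Tm) {a b : List Bool → ℕ} (ha : ∀ w, 0 < a w) (hb : ∀ w, 0 < b w)
    (pa pb : Set (List Bool))
    (h : ∃ y : ℕ, 0 < y ∧ s.ev (sub pa a y) (sub pb b y) ≠ t.ev (sub pa a y) (sub pb b y))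
    (S : Finset ℕ)
    (hS : ∀ y ∈ S, 0 < y ∧ s.ev (sub pa a y) (sub pb b y) = t.ev (sub pa a y) (sub pb b y)) :
    S.card ≤ Zk (s.sz + t.sz) := by
  have key : ∀ (y : ℕ), 0 < y → ((toEx (lf pa a) (lf pb b) s).rv (y : ℝ) =
      (toEx (lf pa a) (lf pb b) t).rv (y : ℝ) ↔
        s.ev (sub pa a y) (sub pb b y) = t.ev (sub pa a y) (sub pb b y)) := by
    intro y hy
    rw [rv_toEx ha hb pa pb hy, rv_toEx ha hb pa pb hy, Nat.cast_inj]
  have h1 := ex_zeros (toEx_pos ha hb pa pb s) (toEx_pos ha hb pa pb t) ?_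
    (S.map ⟨(Nat.cast : ℕ → ℝ), Nat.cast_injective⟩) ?_
  · rwa [Finset.card_map, sz_toEx, sz_toEx] at h1
  · obtain ⟨y, hy, hne⟩ := h
    exact ⟨(y : ℝ), Nat.cast_pos.2 hy, fun h2 => hne ((key y hy).1 h2)⟩
  · intro z hz
    obtain ⟨y, hy, rfl⟩ := Finset.mem_map.1 hz
    obtain ⟨hy0, hye⟩ := hS y hy
    exact ⟨Nat.cast_pos.2 hy0, (key y hy0).2 hye⟩

end Pool.Agent.KV
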