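import Mathlib

/-!
# Module Sard: small regular values

The set of the values of `Ψ` at the points where the determinant of the derivative is zero has
measure zero (`MeasureTheory.addHaar_image_eq_zero_of_det_fderivWithin_eq_zero`); so has its image
under the reflection `z ↦ update z none (- z none)` (a linear isomorphism, measure zero is
preserved: `LinearMap.quasiMeasurePreserving` or `addHaar_preimage_linearMap`). The set of the `z`
with `(fun i => z (some i)) ∈ interior W` and `0 < z none < η` is open and not empty, so it has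
positive measure.
-/

namespace Pool.Agent.KV

open Topology Filter MeasureTheory

/-- The vector with coordinates `ε` and the additional coordinate `e`. -/
def ocons {ι : Type} (ε : ι → ℝ) (e : ℝ) : Option ι → ℝ := fun o => Option.elim o e ε

/-- The reflection in the additional coordinate. -/
def sardR (ι : Type) : (Option ι → ℝ) →ₗ[ℝ] (Option ι → ℝ) where
  toFun z o := Option.elim o (-(z none)) (fun i => z (some i))
  map_add' x y := by
    funext o
    cases o
    · change -(x none + y none) = -(x none) + -(y none)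
      ring
    · rfl
  map_smul' c x := by
    funext o
    cases o
    · change -(c * x none) = c * -(x none)
      ring
    · rfl

theorem sard_small {ι : Type} [Fintype ι] {Ψ : (Option ι → ℝ) → (Option ι → ℝ)}
    {Ψ' : (Option ι → ℝ) → (Option ι → ℝ) →L[ℝ] (Option ι → ℝ)}
    (h : ∀ z, HasFDerivAt Ψ (Ψ' z) z) {W : Set (ι → ℝ)} (hW : W ∈ 𝓝 (0 : ι → ℝ)) {η : ℝ}
    (hη : 0 < η) :
    ∃ (ε : ι → ℝ) (e : ℝ), ε ∈ W ∧ 0 < e ∧ e < η ∧
      (∀ z, Ψ z = ocons ε e → (Ψ' z).det ≠ 0) ∧ (∀ z, Ψ z = ocons ε (-e) → (Ψ' z).det ≠ 0) := by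
  classical
  have hB : volume (Ψ '' {z | (Ψ' z).det = 0}) = 0 :=
    addHaar_image_eq_zero_of_det_fderivWithin_eq_zero volume
      (fun z _ => (h z).hasFDerivWithinAt) (fun z hz => hz)
  have hB' : volume (sardR ι '' (Ψ '' {z | (Ψ' z).det = 0})) = 0 := by
    rw [Measure.addHaar_image_linearMap, hB, mul_zero]
  have hO : IsOpen {z : Option ι → ℝ | (fun i => z (some i)) ∈ interior W ∧ 0 < z none ∧
      z none < η} := by
    refine IsOpen.inter (isOpen_interior.preimage (by fun_prop)) (IsOpen.inter ?_ ?_)
    · exact isOpen_lt continuous_const (continuous_apply (none : Option ι))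
    · exact isOpen_lt (continuous_apply (none : Option ι)) continuous_const
  have hne : {z : Option ι → ℝ | (fun i => z (some i)) ∈ interior W ∧ 0 < z none ∧
      z none < η}.Nonempty := by
    refine ⟨ocons 0 (η / 2), ?_, ?_, ?_⟩
    · have h0 : (0 : ι → ℝ) ∈ interior W := mem_interior_iff_mem_nhds.2 hW
      exact h0
    · change 0 < η / 2
      linarith
    · change η / 2 < η
      linarith
  have hpos := hO.measure_pos volume hne
  have hnot : ¬ ({z : Option ι → ℝ | (fun i => z (some i)) ∈ interior W ∧ 0 < z none ∧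
      z none < η} ⊆ (Ψ '' {z | (Ψ' z).det = 0}) ∪ (sardR ι '' (Ψ '' {z | (Ψ' z).det = 0}))) := by
    intro hsub
    have h1 := measure_mono (μ := volume) hsub
    have h2 := measure_union_le (μ := volume) (Ψ '' {z | (Ψ' z).det = 0})
      (sardR ι '' (Ψ '' {z | (Ψ' z).det = 0}))
    rw [hB, hB', add_zero] at h2
    exact absurd (h1.trans h2) (not_le.2 hpos)
  obtain ⟨z, hz, hzn⟩ := Set.not_subset.1 hnot
  have hzz : ocons (fun i => z (some i)) (z none) = z := by
    funext o
    cases o <;> rfl
  have hzr : sardR ι (ocons (fun i => z (some i)) (-(z none))) = z := by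
    funext o
    cases o
    · change -(-(z none)) = z none
      ring
    · rfl
  refine ⟨fun i => z (some i), z none, interior_subset hz.1, hz.2.1, hz.2.2, ?_, ?_⟩
  · intro w hw hd
    exact hzn (Or.inl ⟨w, hd, hw.trans hzz⟩)
  · intro w hw hd
    exact hzn (Or.inr ⟨_, ⟨w, hd, hw⟩, hzr⟩)

end Pool.Agent.KV
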