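import Pool.Agent.H.MP_b2d7dd_lc.KV.Deriv

/-!
# Module Sphere: making the zero set compact

Let `R` be greater than `∑ x_i ^ 2` for all `x ∈ S`. Add the variable `z` (index `none`) and the
equation `∑ x_i ^ 2 + z ^ 2 - R = 0` (index `none`); the old polynomials are renamed by
`Sum.map some id`, and `c' = some ∘ c`. For `x ∈ S` the point `(x, sqrt (R - ∑ x_i ^ 2))` is a
zero, and the Jacobian is the old one times `2 z ≠ 0` (the column of `z` has zeros except for the
new equation; or use `exists_kernel`: a kernel vector `(v, w)` satisfies the old equations for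
`v`, so `v = 0`, then `2 z w = 0`).
-/

namespace Pool.Agent.KV

open MvPolynomial

variable {ι κ : Type} [Fintype ι] [Fintype κ]

private def Sphere_f (ι κ : Type) : ι ⊕ κ → Option ι ⊕ κ := Sum.map some id

omit [Fintype ι] [Fintype κ] in
private theorem Sphere_inj : Function.Injective (Sphere_f ι κ) :=
  Sum.map_injective.2 ⟨Option.some_injective _, Function.injective_id⟩

private noncomputable def Sphere_y (x : ι → ℝ) (z : ℝ) : Option ι → ℝ := fun o => o.elim z x

omit [Fintype ι] [Fintype κ] in
private theorem Sphere_ev (c : κ → ι) (x : ι → ℝ) (z : ℝ) (Q : MvPolynomial (ι ⊕ κ) ℝ) :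
    ev (fun j => some (c j)) (rename (Sphere_f ι κ) Q) (Sphere_y x z) = ev c Q x := by
  unfold ev
  rw [eval_rename]
  congr 2
  funext s
  rcases s with i | j <;> rfl

omit [Fintype ι] in
private theorem Sphere_dd_some (c : κ → ι) (l : ι) (Q : MvPolynomial (ι ⊕ κ) ℝ) :
    dd (fun j => some (c j)) (some l) (rename (Sphere_f ι κ) Q) =
      rename (Sphere_f ι κ) (dd c l Q) := by
  unfold dd
  rw [map_add, map_sum]
  congr 1
  · exact pderiv_rename Sphere_inj (Sum.inl l) Q
  · refine Finset.sum_congr rfl fun j _ => ?_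
    by_cases h : c j = l
    · rw [if_pos h, if_pos (congrArg some h), map_mul, rename_X]
      congr 1
      exact pderiv_rename Sphere_inj (Sum.inr j) Q
    · rw [if_neg h, if_neg (fun h' => h (Option.some_injective _ h')), map_zero]

omit [Fintype ι] in
private theorem Sphere_dd_none (c : κ → ι) (Q : MvPolynomial (ι ⊕ κ) ℝ) :
    dd (fun j => some (c j)) none (rename (Sphere_f ι κ) Q) = 0 := by
  classical
  unfold dd
  have h1 : pderiv (Sum.inl none) (rename (Sphere_f ι κ) Q) = 0 := by
    refine pderiv_eq_zero_of_notMem_vars fun h => ?_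
    have h2 := vars_rename (Sphere_f ι κ) Q h
    rw [Finset.mem_image] at h2
    obtain ⟨s, -, hs⟩ := h2
    rcases s with i | j
    · simp [Sphere_f] at hs
    · simp [Sphere_f] at hs
  rw [h1, zero_add]
  refine Finset.sum_eq_zero fun j _ => ?_
  rw [if_neg]
  exact Option.some_ne_none _

private theorem Sphere_dd_sq (c : κ → Option ι) (R : ℝ) (o : Option ι) (y : Option ι → ℝ) :
    ev c (dd c o (∑ i : Option ι, X (Sum.inl i) ^ 2 - C R)) y = 2 * y o := by
  classical
  have h1 : pderiv (Sum.inl o) (∑ i : Option ι, X (Sum.inl i) ^ 2 - C R :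
      MvPolynomial (Option ι ⊕ κ) ℝ) = C 2 * X (Sum.inl o) := by
    rw [map_sub, pderiv_C, sub_zero, map_sum, Finset.sum_eq_single o]
    · rw [pderiv_pow, pderiv_X_self]
      have e : (C 2 : MvPolynomial (Option ι ⊕ κ) ℝ) = 2 := map_ofNat C 2
      rw [e]
      simp
    · intro b _ hb
      rw [pderiv_pow, pderiv_X_of_ne (fun h => hb (Sum.inl_injective h)), mul_zero]
    · intro h
      exact absurd (Finset.mem_univ o) h
  have h2 : ∀ j : κ, pderiv (Sum.inr j) (∑ i : Option ι, X (Sum.inl i) ^ 2 - C R :
      MvPolynomial (Option ι ⊕ κ) ℝ) = 0 := by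
    intro j
    rw [map_sub, pderiv_C, sub_zero, map_sum]
    refine Finset.sum_eq_zero fun b _ => ?_
    rw [pderiv_pow, pderiv_X_of_ne (by simp), mul_zero]
  unfold ev dd
  rw [h1]
  have h4 : eval (pt c y) (C 2 * X (Sum.inl o) : MvPolynomial (Option ι ⊕ κ) ℝ) = 2 * y o := by
    rw [map_mul, eval_C, eval_X]
    rfl
  rw [map_add, h4, Finset.sum_eq_zero fun j _ => by rw [h2, mul_zero, ite_self], map_zero,
    add_zero]

theorem exists_sphere {d : ℕ} (c : κ → ι) (P : ι → MvPolynomial (ι ⊕ κ) ℝ)
    (hP : ∀ i, (P i).totalDegree ≤ d) (S : Finset (ι → ℝ)) (hS : ∀ x ∈ S, NonSing c P x) :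
    ∃ (c' : κ → Option ι) (P' : Option ι → MvPolynomial (Option ι ⊕ κ) ℝ) (R : ℝ),
      (∀ i, (P' i).totalDegree ≤ max d 2) ∧
      P' none = ∑ i : Option ι, X (Sum.inl i) ^ 2 - C R ∧
      ∃ S' : Finset (Option ι → ℝ), S'.card = S.card ∧ ∀ x ∈ S', NonSing c' P' x := by
  classical
  obtain ⟨R, hR⟩ : ∃ R : ℝ, ∀ x ∈ S, ∑ i, x i ^ 2 < R := by
    refine ⟨1 + ∑ x ∈ S, ∑ i, x i ^ 2, fun x hx => ?_⟩
    have h := Finset.single_le_sum (f := fun x : ι → ℝ => ∑ i, x i ^ 2)
      (fun x _ => Finset.sum_nonneg fun i _ => sq_nonneg (x i)) hx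
    linarith
  refine ⟨fun j => some (c j), fun o => o.elim (∑ i : Option ι, X (Sum.inl i) ^ 2 - C R)
    (fun i => rename (Sphere_f ι κ) (P i)), R, ?_, rfl,
    S.image fun x => Sphere_y x (Real.sqrt (R - ∑ i, x i ^ 2)), ?_, ?_⟩
  · intro o
    cases o with
    | none =>
      refine le_trans ?_ (le_max_right _ _)
      refine (totalDegree_sub _ _).trans (max_le ?_ ?_)
      · refine totalDegree_finsetSum_le fun i _ => ?_
        refine (totalDegree_pow _ _).trans ?_
        rw [totalDegree_X]
      · rw [totalDegree_C]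
        exact Nat.zero_le _
    | some i =>
      exact ((totalDegree_rename_le _ _).trans (hP i)).trans (le_max_left _ _)
  · refine Finset.card_image_of_injective S fun x x' h => ?_
    funext i
    exact congrFun h (some i)
  · intro y hy
    rw [Finset.mem_image] at hy
    obtain ⟨x, hx, rfl⟩ := hy
    have hRx := hR x hx
    obtain ⟨z, hz⟩ : ∃ z, z = Real.sqrt (R - ∑ i, x i ^ 2) := ⟨_, rfl⟩
    have hz0 : z ≠ 0 := by
      rw [hz]
      exact (Real.sqrt_pos.2 (by linarith)).ne'
    have hz2 : z ^ 2 = R - ∑ i, x i ^ 2 := by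
      rw [hz]
      exact Real.sq_sqrt (by linarith)
    rw [← hz]
    obtain ⟨h1, h2⟩ := hS x hx
    refine ⟨fun o => ?_, fun h0 => ?_⟩
    · cases o with
      | none =>
        show eval (pt _ (Sphere_y x z)) (∑ i : Option ι, X (Sum.inl i) ^ 2 - C R) = 0
        rw [map_sub, map_sum, eval_C, Fintype.sum_option, map_pow, eval_X]
        have h3 : ∀ i : ι, eval (pt (fun j => some (c j)) (Sphere_y x z))
            (X (Sum.inl (some i)) ^ 2 : MvPolynomial (Option ι ⊕ κ) ℝ) = x i ^ 2 := by
          intro i
          rw [map_pow, eval_X]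
          rfl
        rw [Finset.sum_congr rfl fun i _ => h3 i]
        show z ^ 2 + ∑ i, x i ^ 2 - R = 0
        rw [hz2]
        ring
      | some i =>
        show ev _ (rename (Sphere_f ι κ) (P i)) (Sphere_y x z) = 0
        rw [Sphere_ev]
        exact h1 i
    · obtain ⟨v, hv, hk⟩ := exists_kernel _ _ _ h0
      have h3 : ∀ k, ∑ l, ev c (dd c l (P k)) x * v (some l) = 0 := by
        intro k
        have h4 := hk (some k)
        rw [Fintype.sum_option] at h4
        simp only [Option.elim_some] at h4
        rw [Sphere_dd_none] at h4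
        have h5 : ∀ l : ι, ev (fun j => some (c j))
            (dd (fun j => some (c j)) (some l) (rename (Sphere_f ι κ) (P k))) (Sphere_y x z) =
            ev c (dd c l (P k)) x := by
          intro l
          rw [Sphere_dd_some, Sphere_ev]
        rw [Finset.sum_congr rfl fun l _ => by rw [h5 l]] at h4
        have h6 : ev (fun j => some (c j)) (0 : MvPolynomial (Option ι ⊕ κ) ℝ)
            (Sphere_y x z) = 0 := map_zero _
        rw [h6, zero_mul, zero_add] at h4
        exact h4
      have h7 : (fun l => v (some l)) = 0 := by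
        refine Matrix.eq_zero_of_mulVec_eq_zero (M := Matrix.of fun i j => ev c (dd c j (P i)) x)
          ?_ ?_
        · rw [← ev_jac]
          exact h2
        · funext k
          exact h3 k
      have h8 : v none = 0 := by
        have h4 := hk none
        rw [Fintype.sum_option] at h4
        simp only [Option.elim_none] at h4
        rw [Sphere_dd_sq] at h4
        have h9 : ∀ l : ι, v (some l) = 0 := fun l => congrFun h7 l
        rw [Finset.sum_eq_zero fun l _ => by rw [h9 l, mul_zero], add_zero] at h4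
        have h10 : Sphere_y x z none = z := rfl
        rw [h10] at h4
        rcases mul_eq_zero.1 h4 with h | h
        · exact absurd (mul_eq_zero.1 h) (by simp [hz0])
        · exact h
      apply hv
      funext o
      cases o with
      | none => exact h8
      | some l => exact congrFun h7 l

end Pool.Agent.KV
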