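import Pool.Agent.H.MP_b2d7dd_lc.KV.Hom
import Pool.Agent.H.MP_b2d7dd_lc.KV.Loc
import Pool.Agent.H.MP_b2d7dd_lc.KV.Count
import Pool.Agent.H.MP_b2d7dd_lc.KV.Sard
import Pool.Agent.H.MP_b2d7dd_lc.KV.Sphere

/-!
# Module Step: removing one exponential

`step_core`: `persist` for `F x = gl c P (x, 1)`, `J x = Jl c P (x, 1)`: `η`, and for small `ε` at
least `#S` points `x` with `gl (x, 1) = ε`, `|Jl (x, 1)| > η`. `sard_small` for the map
`z ↦ (o ↦ ev (hatc c) (hatP c P o) z)` (`sys_hasStrictFDerivAt`, `det_sysD`) with `η` and `W` = these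
`ε` with `|ε o| < 1`: `ε`, `e`. Let
`Z = {(x, l) | 0 ≤ l ≤ 1, gl (x, l) = ε, e ≤ |Jl (x, l)|}`: closed, and bounded since
`∑ x_i ^ 2 = R + ε o` (from `ho`: `gl (x, l) o = ∑ x_i ^ 2 - R`), so compact (`Metric.isCompact_of_
isClosed_isBounded` in `(ι → ℝ) × ℝ`). `B = {p ∈ Z | |Jl p| = e}`: the map `hatx c` is injective
and sends `B` into the zeros of the two systems `hatP c P o - C (ocons ε (± e) o)`, which are
nonsingular (`jac_sub_C`, `det_sysD`), so every finite subset of `B` has at most `2 N1` elements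
(`Kh (Option ι) κ`), `B` is finite and `B.ncard ≤ 2 N1`. The hypotheses of `count_fibres`:
`loc_unique`, `loc_exists` with `gl_deriv` (and continuity of `Jl` for the points with
`|Jl| > e`). The fibre over `0` consists of nonsingular zeros of the system `zerP P i - C (ε i)`
(`ev_zerP`, `ev_jac_zerP`), so it has at most `N0` elements; the fibre over `1` has at least `#S`.
-/

namespace Pool.Agent.KV

open MvPolynomial Topology

theorem Step_finite {α : Type*} {A : Set α} {N : ℕ}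
    (h : ∀ T : Finset α, (∀ x ∈ T, x ∈ A) → T.card ≤ N) : A.Finite ∧ A.ncard ≤ N := by
  have hf : A.Finite := by
    by_contra hinf
    obtain ⟨T, hT, hc⟩ := Set.Infinite.exists_subset_card_eq hinf (N + 1)
    have := h T (fun x hx => hT hx)
    omega
  refine ⟨hf, ?_⟩
  rw [Set.ncard_eq_toFinset_card A hf]
  exact h _ (fun x hx => hf.mem_toFinset.1 hx)

theorem step_core {ι κ : Type} [Fintype ι] [Fintype κ] {d N0 N1 : ℕ} (h0 : Kh ι κ d N0)
    (h1 : Kh (Option ι) κ (Fintype.card ι * d) N1) (c : Option κ → ι)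
    (P : ι → MvPolynomial (ι ⊕ Option κ) ℝ) (hP : ∀ i, (P i).totalDegree ≤ d) (o : ι) (R : ℝ)
    (ho : P o = ∑ i : ι, X (Sum.inl i) ^ 2 - C R) (S : Finset (ι → ℝ))
    (hS : ∀ x ∈ S, NonSing c P x) : S.card ≤ N0 + 2 * N1 := by
  have hι : 1 ≤ Fintype.card ι := Fintype.card_pos_iff.2 ⟨o⟩
  choose D hD hinj using gl_deriv c P
  obtain ⟨η, hη, hev⟩ := persist (E := ι → ℝ) (F := fun x => gl c P (x, 1))
    (F' := fun x => (D (x, 1)).comp (ContinuousLinearMap.inl ℝ (ι → ℝ) ℝ))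
    (J := fun x => Jl c P (x, 1)) ((continuous_Jl c P).comp (by fun_prop)) S (by
      intro x hx
      have hJ : Jl c P (x, 1) ≠ 0 := by
        rw [Jl_one]
        exact (hS x hx).2
      refine ⟨?_, hJ, ?_, ?_⟩
      · funext i
        exact (gl_one c P x i).trans ((hS x hx).1 i)
      · exact (hD (x, 1)).comp x ((hasStrictFDerivAt_id x).prodMk (hasStrictFDerivAt_const (1 : ℝ) x))
      · intro v hv
        exact hinj (x, 1) hJ v (by simpa using hv))
  have hW : {ε : ι → ℝ | (∃ S' : Finset (ι → ℝ), S'.card = S.card ∧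
      ∀ x ∈ S', gl c P (x, 1) = ε ∧ η < |Jl c P (x, 1)|) ∧ |ε o| < 1} ∈ 𝓝 (0 : ι → ℝ) := by
    refine Filter.inter_mem hev ?_
    have : Continuous fun ε : ι → ℝ => |ε o| := by fun_prop
    refine this.continuousAt.eventually_lt continuousAt_const ?_
    simp
  obtain ⟨ε, e, ⟨⟨S', hS'c, hS'⟩, hεo⟩, he0, heη, hp, hm⟩ := sard_small
    (Ψ := fun z o' => ev (hatc c) (hatP c P o') z)
    (Ψ' := fun z => sysD (hatc c) (hatP c P) z)
    (fun z => (sys_hasStrictFDerivAt (hatc c) (hatP c P) z).hasFDerivAt) hW hη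
  set Z : Set ((ι → ℝ) × ℝ) :=
    {p | p.2 ∈ Set.Icc (0 : ℝ) 1 ∧ gl c P p = ε ∧ e ≤ |Jl c P p|} with hZdef
  have hZcl : IsClosed Z := by
    refine IsClosed.inter (isClosed_Icc.preimage continuous_snd) (IsClosed.inter ?_ ?_)
    · exact isClosed_eq (continuous_gl c P) continuous_const
    · exact isClosed_le continuous_const (continuous_Jl c P).abs
  have hgo : ∀ p : (ι → ℝ) × ℝ, gl c P p o = ∑ i, p.1 i ^ 2 - R := by
    intro p
    simp [gl, ho, ptl]
  have hZ : IsCompact Z := by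
    refine IsCompact.of_isClosed_subset
      ((isCompact_univ_pi fun _ : ι => isCompact_Icc (a := -(R + 2)) (b := R + 2)).prod
        (isCompact_Icc (a := (0 : ℝ)) (b := 1))) hZcl ?_
    rintro ⟨x, l⟩ ⟨hl, hg, -⟩
    refine ⟨fun i _ => ?_, hl⟩
    have h1 := hgo (x, l)
    rw [hg] at h1
    have h2 : x i ^ 2 ≤ ∑ i, x i ^ 2 :=
      Finset.single_le_sum (f := fun i => x i ^ 2) (fun i _ => sq_nonneg (x i)) (Finset.mem_univ i)
    have h3 := (abs_lt.1 hεo).2
    have h4 : x i ^ 2 ≤ R + 1 := by linarith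
    have h5 : 0 ≤ R + 1 := (sq_nonneg _).trans h4
    exact abs_le.1 (abs_le_of_sq_le_sq (by nlinarith) (by linarith))
  have hJne : ∀ p ∈ Z, Jl c P p ≠ 0 := by
    intro p hpZ h0'
    have := hpZ.2.2
    rw [h0', abs_zero] at this
    linarith
  have h1' : ∀ p ∈ Z, ∃ U ∈ 𝓝 p.1, ∃ V ∈ 𝓝 p.2, ∀ l ∈ V, ∀ x ∈ U, ∀ x' ∈ U,
      (x, l) ∈ Z → (x', l) ∈ Z → x = x' := by
    intro p hpZ
    obtain ⟨U, hU, V, hV, h⟩ := loc_unique (hD p) (hinj p (hJne p hpZ))
    exact ⟨U, hU, V, hV, fun l hl x hx x' hx' hz hz' =>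
      h l hl x hx x' hx' (hz.2.1.trans hz'.2.1.symm)⟩
  -- the points on the boundary
  have hsgn : ∀ σ : ℝ, (∀ z, (fun o' => ev (hatc c) (hatP c P o') z) = ocons ε σ →
      (sysD (hatc c) (hatP c P) z).det ≠ 0) →
      {p | p ∈ Z ∧ Jl c P p = σ}.Finite ∧ {p | p ∈ Z ∧ Jl c P p = σ}.ncard ≤ N1 := by
    intro σ hreg
    refine Step_finite fun T hT => ?_
    rw [← Finset.card_map ⟨hatx c, hatx_inj c⟩]
    refine h1 (hatc c) (fun o' => hatP c P o' - C (ocons ε σ o')) (fun o' =>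
      (totalDegree_sub_C_le _ _).trans (totalDegree_hatP c hP hι o')) _ ?_
    intro z hz
    obtain ⟨p, hpT, rfl⟩ := Finset.mem_map.1 hz
    obtain ⟨hpZ, hpσ⟩ := hT p hpT
    have hval : (fun o' => ev (hatc c) (hatP c P o') (hatx c p)) = ocons ε σ := by
      funext o'
      cases o' with
      | none => exact (ev_hatJ c P p).trans hpσ
      | some i => exact (ev_hatP c P p i).trans (congrFun hpZ.2.1 i)
    refine ⟨fun o' => ?_, ?_⟩
    · have := congrFun hval o'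
      simp only [ev] at this
      simp only [ev, map_sub, MvPolynomial.eval_C]
      exact sub_eq_zero.2 this
    · rw [jac_sub_C, ← det_sysD]
      exact hreg _ hval
  have hBp := hsgn e hp
  have hBm := hsgn (-e) hm
  set B : Set ((ι → ℝ) × ℝ) := {p | p ∈ Z ∧ Jl c P p = e} ∪ {p | p ∈ Z ∧ Jl c P p = -e} with hBdef
  have hBf : B.Finite := hBp.1.union hBm.1
  have hBc : B.ncard ≤ 2 * N1 := by
    have := Set.ncard_union_le {p | p ∈ Z ∧ Jl c P p = e} {p | p ∈ Z ∧ Jl c P p = -e}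
    rw [← hBdef] at this
    have h2 := hBp.2
    have h3 := hBm.2
    omega
  have h2' : ∀ p ∈ Z, p ∉ B → ∀ U ∈ 𝓝 p.1, ∀ᶠ l in 𝓝 p.2, l ∈ Set.Icc (0 : ℝ) 1 →
      ∃ x ∈ U, (x, l) ∈ Z := by
    intro p hpZ hpB U hU
    have hlt : e < |Jl c P p| := by
      refine lt_of_le_of_ne hpZ.2.2 fun heq => hpB ?_
      rcases abs_choice (Jl c P p) with h | h
      · exact Or.inl ⟨hpZ, by rw [← h, ← heq]⟩
      · exact Or.inr ⟨hpZ, by rw [heq, h, neg_neg]⟩
    have hopen : {q : (ι → ℝ) × ℝ | e < |Jl c P q|} ∈ 𝓝 p :=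
      continuousAt_const.eventually_lt (continuous_Jl c P).abs.continuousAt hlt
    obtain ⟨U', hU', V', hV', hUV⟩ := mem_nhds_prod_iff.1 hopen
    filter_upwards [loc_exists (hD p) (hinj p (hJne p hpZ)) (U ∩ U') (Filter.inter_mem hU hU'),
      hV'] with l hl hlV hlI
    obtain ⟨x, ⟨hxU, hxU'⟩, hgx⟩ := hl
    refine ⟨x, hxU, hlI, hgx.trans hpZ.2.1, le_of_lt ?_⟩
    exact hUV (Set.mk_mem_prod hxU' hlV)
  have hcount := count_fibres hZ h1' B hBf h2'
  have hfib0 : {x | (x, (0 : ℝ)) ∈ Z}.ncard ≤ N0 := by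
    refine (Step_finite fun T hT => ?_).2
    refine h0 (fun j => c (some j)) (fun i => zerP P i - C (ε i)) (fun i =>
      (totalDegree_sub_C_le _ _).trans (totalDegree_zerP hP i)) T ?_
    intro x hx
    have hxZ : (x, (0 : ℝ)) ∈ Z := hT x hx
    refine ⟨fun i => ?_, ?_⟩
    · have := (ev_zerP c P x i).trans (congrFun hxZ.2.1 i)
      simp only [ev] at this
      simp only [ev, map_sub, MvPolynomial.eval_C]
      exact sub_eq_zero.2 this
    · rw [jac_sub_C, ev_jac_zerP]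
      exact hJne _ hxZ
  have hfib1 : S.card ≤ {x | (x, (1 : ℝ)) ∈ Z}.ncard := by
    rw [← hS'c, ← Set.ncard_coe_finset]
    refine Set.ncard_le_ncard (fun x hx => ?_) (fibre_finite hZ h1' 1)
    have := hS' x hx
    exact ⟨⟨zero_le_one, le_refl _⟩, this.1, (heη.trans this.2).le⟩
  omega

theorem kh_step {ι κ : Type} [Fintype ι] [Fintype κ] {d N0 N1 : ℕ}
    (h0 : Kh (Option ι) κ (max d 2) N0)
    (h1 : Kh (Option (Option ι)) κ ((Fintype.card ι + 1) * max d 2) N1) :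
    Kh ι (Option κ) d (N0 + 2 * N1) := by
  intro c P hP S hS
  obtain ⟨c', P', R, hd, hn, S', hcard, hS'⟩ := exists_sphere c P hP S hS
  rw [← hcard]
  refine step_core (ι := Option ι) (κ := κ) h0 ?_ c' P' hd none R hn S' hS'
  rw [Fintype.card_option]
  exact h1

end Pool.Agent.KV
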